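import Pool.Agent.Helper24.EXJ.Defs

/-!
# Project EX, module J, part K (helper72): expansion of the Gaussian kernel

PROOFS. `tan_mul`: `(x x')⁻¹ = x'⁻¹ x⁻¹`, multiply `1 - εY' + O(ε^2)` and `1 - εY + O(ε^2)`; entries bounded.
`tan_aT`, `tan_sg`, `tan_cj_sg`: explicit entries, `|exp(-2ε) - 1 + 2ε| ≤ C ε^2` etc. for `0 < ε ≤ 1`.
`Tan.kernel`: let `M = x(ε)⁻¹`, `q' = q (act M m)`. Then `|q' - q m + 2 ε qf Y m| ≤ C ε^2 q m` (expand
`|m_j - ε Y m_j + O(ε^2)|m_j||^2`) and `q' ≥ c q m` since `m = x(ε) (M m)` and the entries of `x(ε)` are bounded.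
`|e^(-q') - e^(-q) - (q - q') e^(-q)| ≤ (q - q')^2 e^(-min(q,q'))`, `|q - q'| ≤ C ε q`, and
`(q + q^2) e^(-c q) ≤ C e^(-c q / 2)`.
-/

set_option autoImplicit false

namespace Pool.Agent.Helper87.EX

open MeasureTheory Complex Matrix
open scoped BigOperators

namespace Ker

/-- first order expansion of the norm along the curve `x`, with a lower bound -/
def TanQ (x : ℝ → G3) (Y : Matrix (Fin 3) (Fin 3) ℂ) : Prop :=
  ∃ C c : ℝ, 0 ≤ C ∧ 0 < c ∧ ∀ ε ∈ Set.Ioc (0:ℝ) 1, ∀ y : E 1,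
    |q (act (((x ε)⁻¹ : G3) : Matrix (Fin 3) (Fin 3) ℂ) y) - q y + 2 * ε * qf Y y|
      ≤ C * ε ^ 2 * q y ∧
    c * q y ≤ q (act (((x ε)⁻¹ : G3) : Matrix (Fin 3) (Fin 3) ℂ) y)

/-- first order expansion of the curve itself, on vectors -/
def TanV (x : ℝ → G3) (Y : Matrix (Fin 3) (Fin 3) ℂ) : Prop :=
  ∃ C : ℝ, 0 ≤ C ∧ ∀ ε ∈ Set.Ioc (0:ℝ) 1, ∀ y : Fin 3 → ℂ,
    ‖(((x ε)⁻¹ : G3) : Matrix (Fin 3) (Fin 3) ℂ).mulVec y - y + (ε : ℂ) • Y.mulVec y‖
      ≤ C * ε ^ 2 * ‖y‖ ∧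
    ‖((x ε : G3) : Matrix (Fin 3) (Fin 3) ℂ).mulVec y‖ ≤ C * ‖y‖

/-! ### elementary facts on `q` -/

theorem q_nonneg' {n : ℕ} (m : E n) : 0 ≤ q m :=
  Finset.sum_nonneg fun _ _ => Finset.sum_nonneg fun _ _ => Complex.normSq_nonneg _

theorem q_col {n : ℕ} (m : E n) : q m = ∑ j, q (fun _ : Fin 1 => m j) := by
  simp [q]

theorem qf_col {n : ℕ} (Y : Matrix (Fin 3) (Fin 3) ℂ) (m : E n) :
    qf Y m = ∑ j, qf Y (fun _ : Fin 1 => m j) := by
  simp [qf]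

theorem act_col {n : ℕ} (g : Matrix (Fin 3) (Fin 3) ℂ) (m : E n) (j : Fin n) :
    (fun _ : Fin 1 => act g m j) = act g (fun _ : Fin 1 => m j) := rfl

theorem q_le_norm (y : Fin 3 → ℂ) : q (fun _ : Fin 1 => y) ≤ 3 * ‖y‖ ^ 2 := by
  have h : ∀ i, Complex.normSq (y i) ≤ ‖y‖ ^ 2 := by
    intro i
    rw [Complex.normSq_eq_norm_sq]
    have := norm_le_pi_norm y i
    gcongr
  simp only [q, Finset.univ_unique, Finset.sum_singleton, Fin.sum_univ_three]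
  nlinarith [h 0, h 1, h 2]

theorem norm_le_q (y : Fin 3 → ℂ) : ‖y‖ ^ 2 ≤ q (fun _ : Fin 1 => y) := by
  have h : ‖y‖ ≤ Real.sqrt (q (fun _ : Fin 1 => y)) := by
    rw [pi_norm_le_iff_of_nonneg (Real.sqrt_nonneg _)]
    intro i
    apply Real.le_sqrt_of_sq_le
    rw [← Complex.normSq_eq_norm_sq]
    simp only [q, Finset.univ_unique, Finset.sum_singleton]
    exact Finset.single_le_sum (f := fun i => Complex.normSq (y i))
      (fun _ _ => Complex.normSq_nonneg _) (Finset.mem_univ i)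
  have h2 := Real.sq_sqrt (q_nonneg' (fun _ : Fin 1 => y))
  nlinarith [norm_nonneg y, Real.sqrt_nonneg (q (fun _ : Fin 1 => y))]

theorem mulVec_le {M : Matrix (Fin 3) (Fin 3) ℂ} {δ : ℝ} (h : ∀ i j, ‖M i j‖ ≤ δ)
    (y : Fin 3 → ℂ) : ‖M.mulVec y‖ ≤ 3 * δ * ‖y‖ := by
  have hδ : 0 ≤ δ := (norm_nonneg _).trans (h 0 0)
  rw [pi_norm_le_iff_of_nonneg (by positivity)]
  intro i
  simp only [Matrix.mulVec, dotProduct, Fin.sum_univ_three]
  have h1 : ∀ j, ‖M i j * y j‖ ≤ δ * ‖y‖ := by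
    intro j
    rw [norm_mul]
    exact mul_le_mul (h i j) (norm_le_pi_norm y j) (norm_nonneg _) hδ
  calc ‖M i 0 * y 0 + M i 1 * y 1 + M i 2 * y 2‖
      ≤ ‖M i 0 * y 0‖ + ‖M i 1 * y 1‖ + ‖M i 2 * y 2‖ := norm_add₃_le
    _ ≤ 3 * δ * ‖y‖ := by linarith [h1 0, h1 1, h1 2]

theorem exists_bd (M : Matrix (Fin 3) (Fin 3) ℂ) :
    ∃ B : ℝ, 0 ≤ B ∧ ∀ y : Fin 3 → ℂ, ‖M.mulVec y‖ ≤ B * ‖y‖ := by
  refine ⟨3 * ∑ i, ∑ j, ‖M i j‖, by positivity, fun y => ?_⟩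
  apply mulVec_le
  intro i j
  calc ‖M i j‖ ≤ ∑ j, ‖M i j‖ :=
        Finset.single_le_sum (f := fun j => ‖M i j‖) (fun _ _ => norm_nonneg _) (Finset.mem_univ j)
    _ ≤ ∑ i, ∑ j, ‖M i j‖ :=
        Finset.single_le_sum (f := fun i => ∑ j, ‖M i j‖)
          (fun _ _ => Finset.sum_nonneg fun _ _ => norm_nonneg _) (Finset.mem_univ i)

theorem dot_le (x y : Fin 3 → ℂ) : |(star x ⬝ᵥ y).re| ≤ 3 * (‖x‖ * ‖y‖) := by
  refine (Complex.abs_re_le_norm _).trans ?_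
  simp only [dotProduct, Fin.sum_univ_three, Pi.star_apply]
  have h1 : ∀ j, ‖star (x j) * y j‖ ≤ ‖x‖ * ‖y‖ := by
    intro j
    rw [norm_mul, norm_star]
    exact mul_le_mul (norm_le_pi_norm x j) (norm_le_pi_norm y j) (norm_nonneg _) (norm_nonneg _)
  calc ‖star (x 0) * y 0 + star (x 1) * y 1 + star (x 2) * y 2‖
      ≤ ‖star (x 0) * y 0‖ + ‖star (x 1) * y 1‖ + ‖star (x 2) * y 2‖ := norm_add₃_le
    _ ≤ 3 * (‖x‖ * ‖y‖) := by linarith [h1 0, h1 1, h1 2]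

theorem qf_bd (Y : Matrix (Fin 3) (Fin 3) ℂ) :
    ∃ B : ℝ, 0 ≤ B ∧ ∀ (n : ℕ) (m : E n), |qf Y m| ≤ B * q m := by
  obtain ⟨B, hB, hb⟩ := exists_bd Y
  refine ⟨3 * B, by positivity, fun n m => ?_⟩
  rw [qf, q_col, Finset.mul_sum]
  refine (Finset.abs_sum_le_sum_abs _ _).trans (Finset.sum_le_sum fun j _ => ?_)
  have h1 := dot_le (m j) (Y.mulVec (m j))
  have h2 := hb (m j)
  have h3 := norm_le_q (m j)
  have h4 : ‖m j‖ * ‖Y.mulVec (m j)‖ ≤ B * ‖m j‖ ^ 2 := by nlinarith [norm_nonneg (m j)]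
  nlinarith

theorem normSq_expand (a b r : ℂ) :
    Complex.normSq (a - b + r) - Complex.normSq a + 2 * (star a * b).re
      = Complex.normSq (r - b) + 2 * (star a * r).re := by
  simp [Complex.normSq_apply]
  ring

theorem TanV.tanQ {x : ℝ → G3} {Y : Matrix (Fin 3) (Fin 3) ℂ} (h : TanV x Y) : TanQ x Y := by
  obtain ⟨C, hC, h⟩ := h
  obtain ⟨B, hB, hb⟩ := exists_bd Y
  refine ⟨3 * ((B + C) ^ 2 + 2 * C), 1 / (3 * C ^ 2 + 1), by positivity, by positivity,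
    fun ε hε y => ?_⟩
  obtain ⟨h0, h1⟩ := hε
  set g : Matrix (Fin 3) (Fin 3) ℂ := (((x ε)⁻¹ : G3) : Matrix (Fin 3) (Fin 3) ℂ) with hg
  set g' : Matrix (Fin 3) (Fin 3) ℂ := ((x ε : G3) : Matrix (Fin 3) (Fin 3) ℂ) with hg'
  have hgg : g' * g = 1 := by
    rw [hg, hg', ← Matrix.SpecialLinearGroup.coe_mul, mul_inv_cancel,
      Matrix.SpecialLinearGroup.coe_one]
  have hy : y = fun _ => y 0 := by
    funext i; rw [Subsingleton.elim i 0]
  set z := y 0 with hz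
  have hact : act g y = fun _ : Fin 1 => g.mulVec z := by
    funext i; simp [act, hz, Subsingleton.elim i 0]
  rw [hact, hy]
  have e1 := (h ε ⟨h0, h1⟩ z).1
  rw [← hg] at e1
  have e2 := (h ε ⟨h0, h1⟩ (g.mulVec z)).2
  rw [← hg', Matrix.mulVec_mulVec, hgg, Matrix.one_mulVec] at e2
  have e3 := hb z
  constructor
  · set r : Fin 3 → ℂ := g.mulVec z - z + (ε : ℂ) • Y.mulVec z with hr
    have key : q (fun _ : Fin 1 => g.mulVec z) - q (fun _ : Fin 1 => z)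
        + 2 * ε * qf Y (fun _ : Fin 1 => z)
        = ∑ i, (Complex.normSq (r i - (ε : ℂ) * Y.mulVec z i) + 2 * (star (z i) * r i).re) := by
      have h1 : ∀ i, Complex.normSq (r i - (ε : ℂ) * Y.mulVec z i) + 2 * (star (z i) * r i).re
          = Complex.normSq (g.mulVec z i) - Complex.normSq (z i)
            + 2 * (ε * (star (z i) * Y.mulVec z i).re) := by
        intro i
        rw [← normSq_expand]
        have h2 : z i - (ε : ℂ) * Y.mulVec z i + r i = g.mulVec z i := by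
          simp [hr]
        rw [h2]
        have h3 : (star (z i) * ((ε : ℂ) * Y.mulVec z i)).re
            = ε * (star (z i) * Y.mulVec z i).re := by
          rw [show star (z i) * ((ε : ℂ) * Y.mulVec z i) = (ε : ℂ) * (star (z i) * Y.mulVec z i) by
            ring, Complex.re_ofReal_mul]
        rw [h3]
      rw [Finset.sum_congr rfl (fun i _ => h1 i)]
      simp only [q, qf, Finset.univ_unique, Finset.sum_singleton, dotProduct, Complex.re_sum,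
        Pi.star_apply, Finset.sum_add_distrib, Finset.sum_sub_distrib, Finset.mul_sum]
      congr 1
      exact Finset.sum_congr rfl fun i _ => by ring
    rw [key]
    have hri : ∀ i, ‖r i‖ ≤ C * ε ^ 2 * ‖z‖ := fun i => (norm_le_pi_norm r i).trans e1
    have hYi : ∀ i, ‖Y.mulVec z i‖ ≤ B * ‖z‖ := fun i => (norm_le_pi_norm _ i).trans e3
    have hzi : ∀ i, ‖z i‖ ≤ ‖z‖ := fun i => norm_le_pi_norm z i
    have hterm : ∀ i, |Complex.normSq (r i - (ε : ℂ) * Y.mulVec z i) + 2 * (star (z i) * r i).re|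
        ≤ ((B + C) ^ 2 + 2 * C) * ε ^ 2 * ‖z‖ ^ 2 := by
      intro i
      have t1 : ‖r i - (ε : ℂ) * Y.mulVec z i‖ ≤ (B + C) * ε * ‖z‖ := by
        calc ‖r i - (ε : ℂ) * Y.mulVec z i‖ ≤ ‖r i‖ + ‖(ε : ℂ) * Y.mulVec z i‖ := norm_sub_le _ _
          _ ≤ C * ε ^ 2 * ‖z‖ + ε * (B * ‖z‖) := by
              gcongr
              · exact hri i
              · rw [norm_mul, Complex.norm_real, Real.norm_of_nonneg h0.le]
                gcongr
                exact hYi i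
          _ ≤ (B + C) * ε * ‖z‖ := by
              have : C * ε ^ 2 * ‖z‖ ≤ C * ε * ‖z‖ := by
                gcongr
                nlinarith
              linarith
      have t2 : |(star (z i) * r i).re| ≤ C * ε ^ 2 * ‖z‖ ^ 2 := by
        refine (Complex.abs_re_le_norm _).trans ?_
        rw [norm_mul, norm_star]
        calc ‖z i‖ * ‖r i‖ ≤ ‖z‖ * (C * ε ^ 2 * ‖z‖) :=
              mul_le_mul (hzi i) (hri i) (norm_nonneg _) (norm_nonneg _)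
          _ = C * ε ^ 2 * ‖z‖ ^ 2 := by ring
      have t3 : Complex.normSq (r i - (ε : ℂ) * Y.mulVec z i) ≤ (B + C) ^ 2 * ε ^ 2 * ‖z‖ ^ 2 := by
        rw [Complex.normSq_eq_norm_sq]
        calc ‖r i - (ε : ℂ) * Y.mulVec z i‖ ^ 2 ≤ ((B + C) * ε * ‖z‖) ^ 2 := by gcongr
          _ = (B + C) ^ 2 * ε ^ 2 * ‖z‖ ^ 2 := by ring
      have t4 := Complex.normSq_nonneg (r i - (ε : ℂ) * Y.mulVec z i)
      rw [abs_le] at t2 ⊢
      constructor <;> nlinarith [t2.1, t2.2, mul_nonneg (mul_nonneg hC (sq_nonneg ε)) (sq_nonneg ‖z‖),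
        mul_nonneg (mul_nonneg (sq_nonneg (B + C)) (sq_nonneg ε)) (sq_nonneg ‖z‖)]
    have hz2 := norm_le_q z
    calc |∑ i, (Complex.normSq (r i - (ε : ℂ) * Y.mulVec z i) + 2 * (star (z i) * r i).re)|
        ≤ ∑ i : Fin 3, ((B + C) ^ 2 + 2 * C) * ε ^ 2 * ‖z‖ ^ 2 :=
          (Finset.abs_sum_le_sum_abs _ _).trans (Finset.sum_le_sum fun i _ => hterm i)
      _ = 3 * ((B + C) ^ 2 + 2 * C) * ε ^ 2 * ‖z‖ ^ 2 := by
          rw [Finset.sum_const, Finset.card_univ, Fintype.card_fin]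
          simp only [nsmul_eq_mul]
          push_cast
          ring
      _ ≤ 3 * ((B + C) ^ 2 + 2 * C) * ε ^ 2 * q (fun _ : Fin 1 => z) := by gcongr
  · have f1 := q_le_norm z
    have f2 := norm_le_q (g.mulVec z)
    have f3 : ‖z‖ ^ 2 ≤ C ^ 2 * ‖g.mulVec z‖ ^ 2 := by
      calc ‖z‖ ^ 2 ≤ (C * ‖g.mulVec z‖) ^ 2 := by gcongr
        _ = C ^ 2 * ‖g.mulVec z‖ ^ 2 := by ring
    rw [div_mul_eq_mul_div, one_mul, div_le_iff₀ (by positivity)]
    nlinarith [sq_nonneg C, sq_nonneg ‖g.mulVec z‖, mul_nonneg (sq_nonneg C)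
      (sub_nonneg.mpr f2), q_nonneg' (fun _ : Fin 1 => g.mulVec z)]

/-! ### the Gaussian expansion -/

theorem exp_sub_le (x : ℝ) : |Real.exp x - 1| ≤ |x| * max 1 (Real.exp x) := by
  have h1 := Real.add_one_le_exp x
  have h2 := Real.add_one_le_exp (-x)
  have h3 : Real.exp (-x) * Real.exp x = 1 := by rw [← Real.exp_add]; simp
  have h4 := Real.exp_pos x
  rcases le_total 0 x with hx | hx
  · rw [abs_of_nonneg (by linarith), abs_of_nonneg hx]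
    have : Real.exp x - 1 ≤ x * Real.exp x := by nlinarith
    exact this.trans (mul_le_mul_of_nonneg_left (le_max_right _ _) hx)
  · have h5 : Real.exp x ≤ 1 := Real.exp_le_one_iff.mpr hx
    rw [abs_of_nonpos (by linarith), abs_of_nonpos hx]
    have : -(Real.exp x - 1) ≤ -x * 1 := by linarith
    exact this.trans (mul_le_mul_of_nonneg_left (le_max_left _ _) (by linarith))

theorem exp_sub_sub_le (x : ℝ) :
    |Real.exp x - 1 - x| ≤ x ^ 2 * max 1 (Real.exp x) := by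
  have h1 := Real.add_one_le_exp x
  have h2 := Real.add_one_le_exp (-x)
  have h3 : Real.exp (-x) * Real.exp x = 1 := by rw [← Real.exp_add]; simp
  have h4 := Real.exp_pos x
  have h5 : Real.exp x - 1 - x ≤ x * (Real.exp x - 1) := by nlinarith
  rw [abs_of_nonneg (by linarith)]
  have h6 := exp_sub_le x
  calc Real.exp x - 1 - x ≤ x * (Real.exp x - 1) := h5
    _ ≤ |x * (Real.exp x - 1)| := le_abs_self _
    _ = |x| * |Real.exp x - 1| := abs_mul _ _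
    _ ≤ |x| * (|x| * max 1 (Real.exp x)) := by gcongr
    _ = x ^ 2 * max 1 (Real.exp x) := by rw [← mul_assoc, ← sq, sq_abs]

/-- the two expansions for `exp (-b)` around `exp (-a)`, if `b, a ≥ c a` -/
theorem exp_two {a b c : ℝ} (hc1 : c ≤ 1) (ha : 0 ≤ a) (hb : c * a ≤ b) :
    |Real.exp (-b) - Real.exp (-a)| ≤ |b - a| * Real.exp (-(c * a)) ∧
    |Real.exp (-b) - Real.exp (-a) + (b - a) * Real.exp (-a)|
      ≤ (b - a) ^ 2 * Real.exp (-(c * a)) := by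
  have h0 : Real.exp (-a) ≤ Real.exp (-(c * a)) := Real.exp_le_exp.mpr (by nlinarith)
  have h1 : Real.exp (-b) ≤ Real.exp (-(c * a)) := Real.exp_le_exp.mpr (by linarith)
  have h2 : Real.exp (-b) = Real.exp (-a) * Real.exp (a - b) := by
    rw [← Real.exp_add]; ring_nf
  have h3 : Real.exp (-a) * max 1 (Real.exp (a - b)) ≤ Real.exp (-(c * a)) := by
    rw [mul_max_of_nonneg _ _ (Real.exp_pos _).le, mul_one, ← h2]
    exact max_le h0 h1
  have hp := (Real.exp_pos (-a)).le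
  constructor
  · have h4 := exp_sub_le (a - b)
    calc |Real.exp (-b) - Real.exp (-a)| = Real.exp (-a) * |Real.exp (a - b) - 1| := by
          rw [h2, ← abs_of_nonneg hp, ← abs_mul, abs_of_nonneg hp]; ring_nf
      _ ≤ Real.exp (-a) * (|a - b| * max 1 (Real.exp (a - b))) := by gcongr
      _ = |b - a| * (Real.exp (-a) * max 1 (Real.exp (a - b))) := by rw [abs_sub_comm]; ring
      _ ≤ |b - a| * Real.exp (-(c * a)) := by gcongr
  · have h4 := exp_sub_sub_le (a - b)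
    calc |Real.exp (-b) - Real.exp (-a) + (b - a) * Real.exp (-a)|
        = Real.exp (-a) * |Real.exp (a - b) - 1 - (a - b)| := by
          rw [h2, ← abs_of_nonneg hp, ← abs_mul, abs_of_nonneg hp]; ring_nf
      _ ≤ Real.exp (-a) * ((a - b) ^ 2 * max 1 (Real.exp (a - b))) := by gcongr
      _ = (b - a) ^ 2 * (Real.exp (-a) * max 1 (Real.exp (a - b))) := by ring
      _ ≤ (b - a) ^ 2 * Real.exp (-(c * a)) := by gcongr

/-- polynomial factors are absorbed by half of the exponent -/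
theorem poly_exp {c : ℝ} (hc : 0 < c) : ∃ P : ℝ, 0 ≤ P ∧ ∀ a : ℝ, 0 ≤ a →
    a * Real.exp (-(c * a)) ≤ P * Real.exp (-(c / 2) * a) ∧
    a ^ 2 * Real.exp (-(c * a)) ≤ P * Real.exp (-(c / 2) * a) := by
  refine ⟨max (2 / c) (8 / c ^ 2), by positivity, fun a ha => ?_⟩
  have h1 : Real.exp (-(c * a)) = Real.exp (-(c / 2) * a) * Real.exp (-(c / 2) * a) := by
    rw [← Real.exp_add]; ring_nf
  have h2 : Real.exp (c / 2 * a) * Real.exp (-(c / 2) * a) = 1 := by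
    rw [← Real.exp_add]; simp
  have h3 := Real.quadratic_le_exp_of_nonneg (x := c / 2 * a) (by positivity)
  have h4 := Real.exp_pos (-(c / 2) * a)
  have h5 : a ≤ 2 / c * Real.exp (c / 2 * a) := by
    rw [div_mul_eq_mul_div, le_div_iff₀ hc]
    nlinarith [sq_nonneg (c / 2 * a)]
  have h6 : a ^ 2 ≤ 8 / c ^ 2 * Real.exp (c / 2 * a) := by
    rw [div_mul_eq_mul_div, le_div_iff₀ (by positivity)]
    nlinarith [mul_nonneg hc.le ha]
  have h7 : a * Real.exp (-(c / 2) * a) ≤ 2 / c := by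
    calc a * Real.exp (-(c / 2) * a) ≤ 2 / c * Real.exp (c / 2 * a) * Real.exp (-(c / 2) * a) := by
          gcongr
      _ = 2 / c := by rw [mul_assoc, h2, mul_one]
  have h8 : a ^ 2 * Real.exp (-(c / 2) * a) ≤ 8 / c ^ 2 := by
    calc a ^ 2 * Real.exp (-(c / 2) * a)
        ≤ 8 / c ^ 2 * Real.exp (c / 2 * a) * Real.exp (-(c / 2) * a) := by
          gcongr
      _ = 8 / c ^ 2 := by rw [mul_assoc, h2, mul_one]
  constructor
  · rw [h1, ← mul_assoc]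
    gcongr
    exact h7.trans (le_max_left _ _)
  · rw [h1, ← mul_assoc]
    gcongr
    exact h8.trans (le_max_right _ _)

theorem TanQ.sum {x : ℝ → G3} {Y : Matrix (Fin 3) (Fin 3) ℂ} (h : TanQ x Y) :
    ∃ C c : ℝ, 0 ≤ C ∧ 0 < c ∧ c ≤ 1 ∧ ∀ ε ∈ Set.Ioc (0:ℝ) 1, ∀ (n : ℕ) (m : E n),
      |q (act (((x ε)⁻¹ : G3) : Matrix (Fin 3) (Fin 3) ℂ) m) - q m + 2 * ε * qf Y m|
        ≤ C * ε ^ 2 * q m ∧
      c * q m ≤ q (act (((x ε)⁻¹ : G3) : Matrix (Fin 3) (Fin 3) ℂ) m) := by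
  obtain ⟨C, c, hC, hc, h⟩ := h
  refine ⟨C, min c 1, hC, by positivity, min_le_right _ _, fun ε hε n m => ?_⟩
  constructor
  · rw [q_col (act _ m), q_col m, qf_col Y m, Finset.mul_sum, ← Finset.sum_sub_distrib,
      ← Finset.sum_add_distrib, Finset.mul_sum]
    refine (Finset.abs_sum_le_sum_abs _ _).trans (Finset.sum_le_sum fun j _ => ?_)
    rw [act_col]
    exact (h ε hε (fun _ => m j)).1
  · rw [q_col (act _ m), q_col m, Finset.mul_sum]
    refine Finset.sum_le_sum fun j _ => ?_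
    rw [act_col]
    refine le_trans ?_ (h ε hε (fun _ => m j)).2
    have := q_nonneg' (fun _ : Fin 1 => m j)
    gcongr
    exact min_le_left _ _

/-- the kernel expansion -/
theorem TanQ.ker {x : ℝ → G3} {Y : Matrix (Fin 3) (Fin 3) ℂ} (h : TanQ x Y) (n : ℕ) :
    ∃ C c : ℝ, 0 ≤ C ∧ 0 < c ∧ ∀ ε ∈ Set.Ioc (0:ℝ) 1, ∀ m : E n,
      |rho (act (((x ε)⁻¹ : G3) : Matrix (Fin 3) (Fin 3) ℂ) m) - rho m - ε * dk Y m|
        ≤ C * ε ^ 2 * Real.exp (-c * q m) ∧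
      |rho (act (((x ε)⁻¹ : G3) : Matrix (Fin 3) (Fin 3) ℂ) m) - rho m|
        ≤ C * ε * Real.exp (-c * q m) ∧
      |dk Y m| ≤ C * Real.exp (-c * q m) ∧
      |rho m| ≤ C * Real.exp (-c * q m) := by
  obtain ⟨C, c, hC, hc, hc1, h⟩ := h.sum
  obtain ⟨B, hB, hb⟩ := qf_bd Y
  obtain ⟨P, hP, hp⟩ := poly_exp hc
  set K : ℝ := C + 2 * B with hK
  have hK0 : 0 ≤ K := by positivity
  have hZ : 0 ≤ |Z n|⁻¹ := by positivity
  refine ⟨(K * P + K ^ 2 * P + C * P + 2 * B * P + 1) * |Z n|⁻¹, c / 2, by positivity,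
    by positivity, fun ε hε m => ?_⟩
  obtain ⟨h0, h1⟩ := hε
  obtain ⟨e1, e2⟩ := h ε ⟨h0, h1⟩ n m
  set a := q m with ha
  set b := q (act (((x ε)⁻¹ : G3) : Matrix (Fin 3) (Fin 3) ℂ) m) with hbdef
  have ha0 : 0 ≤ a := q_nonneg' m
  have hqf := hb n m
  obtain ⟨p1, p2⟩ := hp a ha0
  obtain ⟨t1, t2⟩ := exp_two hc1 ha0 e2
  set X := Real.exp (-(c / 2) * a) with hX
  have hX0 : 0 < X := Real.exp_pos _
  have hexp : Real.exp (-a) ≤ Real.exp (-(c * a)) := Real.exp_le_exp.mpr (by nlinarith)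
  have hexp2 : Real.exp (-a) ≤ X := Real.exp_le_exp.mpr (by nlinarith)
  have hd : |b - a| ≤ K * ε * a := by
    have hh : b - a = (b - a + 2 * ε * qf Y m) - 2 * ε * qf Y m := by ring
    rw [hh]
    calc |(b - a + 2 * ε * qf Y m) - 2 * ε * qf Y m|
        ≤ |b - a + 2 * ε * qf Y m| + |2 * ε * qf Y m| := abs_sub _ _
      _ ≤ C * ε ^ 2 * a + 2 * ε * (B * a) := by
          gcongr
          rw [abs_mul, abs_of_nonneg (by positivity : (0:ℝ) ≤ 2 * ε)]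
          gcongr
      _ ≤ K * ε * a := by
          have : C * ε ^ 2 * a ≤ C * ε * a := by
            gcongr
            nlinarith
          rw [hK]
          nlinarith
  have u1 : |Real.exp (-b) - Real.exp (-a)| ≤ K * P * ε * X := by
    calc |Real.exp (-b) - Real.exp (-a)| ≤ |b - a| * Real.exp (-(c * a)) := t1
      _ ≤ K * ε * a * Real.exp (-(c * a)) := by gcongr
      _ = K * ε * (a * Real.exp (-(c * a))) := by ring
      _ ≤ K * ε * (P * X) := by gcongr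
      _ = K * P * ε * X := by ring
  have u2 : |Real.exp (-b) - Real.exp (-a) - ε * (2 * qf Y m * Real.exp (-a))|
      ≤ (K ^ 2 * P + C * P) * ε ^ 2 * X := by
    have hh : Real.exp (-b) - Real.exp (-a) - ε * (2 * qf Y m * Real.exp (-a))
        = (Real.exp (-b) - Real.exp (-a) + (b - a) * Real.exp (-a))
          - (b - a + 2 * ε * qf Y m) * Real.exp (-a) := by ring
    rw [hh]
    have v1 : (b - a) ^ 2 * Real.exp (-(c * a)) ≤ K ^ 2 * P * ε ^ 2 * X := by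
      calc (b - a) ^ 2 * Real.exp (-(c * a)) = |b - a| ^ 2 * Real.exp (-(c * a)) := by
            rw [sq_abs]
        _ ≤ (K * ε * a) ^ 2 * Real.exp (-(c * a)) := by gcongr
        _ = K ^ 2 * ε ^ 2 * (a ^ 2 * Real.exp (-(c * a))) := by ring
        _ ≤ K ^ 2 * ε ^ 2 * (P * X) := by gcongr
        _ = K ^ 2 * P * ε ^ 2 * X := by ring
    have v2 : |(b - a + 2 * ε * qf Y m) * Real.exp (-a)| ≤ C * P * ε ^ 2 * X := by
      rw [abs_mul, abs_of_nonneg (Real.exp_pos _).le]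
      calc |b - a + 2 * ε * qf Y m| * Real.exp (-a)
          ≤ C * ε ^ 2 * a * Real.exp (-(c * a)) := by gcongr
        _ = C * ε ^ 2 * (a * Real.exp (-(c * a))) := by ring
        _ ≤ C * ε ^ 2 * (P * X) := by gcongr
        _ = C * P * ε ^ 2 * X := by ring
    calc |(Real.exp (-b) - Real.exp (-a) + (b - a) * Real.exp (-a))
          - (b - a + 2 * ε * qf Y m) * Real.exp (-a)|
        ≤ |Real.exp (-b) - Real.exp (-a) + (b - a) * Real.exp (-a)|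
          + |(b - a + 2 * ε * qf Y m) * Real.exp (-a)| := abs_sub _ _
      _ ≤ K ^ 2 * P * ε ^ 2 * X + C * P * ε ^ 2 * X := add_le_add (t2.trans v1) v2
      _ = (K ^ 2 * P + C * P) * ε ^ 2 * X := by ring
  have u3 : |2 * qf Y m * Real.exp (-a)| ≤ 2 * B * P * X := by
    rw [abs_mul, abs_mul, abs_of_nonneg (Real.exp_pos _).le, abs_of_nonneg (zero_le_two)]
    calc 2 * |qf Y m| * Real.exp (-a) ≤ 2 * (B * a) * Real.exp (-(c * a)) := by gcongr
      _ = 2 * B * (a * Real.exp (-(c * a))) := by ring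
      _ ≤ 2 * B * (P * X) := by gcongr
      _ = 2 * B * P * X := by ring
  have hKP : 0 ≤ K * P := by positivity
  have hK2P : 0 ≤ K ^ 2 * P := by positivity
  have hCP : 0 ≤ C * P := by positivity
  have hBP : 0 ≤ 2 * B * P := by positivity
  set T : ℝ := K * P + K ^ 2 * P + C * P + 2 * B * P + 1 with hT
  have hT1 : K ^ 2 * P + C * P ≤ T := by rw [hT]; linarith
  have hT2 : K * P ≤ T := by rw [hT]; linarith
  have hT3 : 2 * B * P ≤ T := by rw [hT]; linarith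
  have hT4 : 1 ≤ T := by rw [hT]; linarith
  refine ⟨?_, ?_, ?_, ?_⟩
  · have hh : rho (act (((x ε)⁻¹ : G3) : Matrix (Fin 3) (Fin 3) ℂ) m) - rho m - ε * dk Y m
        = (Real.exp (-b) - Real.exp (-a) - ε * (2 * qf Y m * Real.exp (-a))) * (Z n)⁻¹ := by
      simp only [rho, dk, ← ha, ← hbdef, div_eq_mul_inv]
      ring
    rw [hh, abs_mul, abs_inv]
    calc |Real.exp (-b) - Real.exp (-a) - ε * (2 * qf Y m * Real.exp (-a))| * |Z n|⁻¹
        ≤ ((K ^ 2 * P + C * P) * ε ^ 2 * X) * |Z n|⁻¹ := by gcongr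
      _ ≤ (T * ε ^ 2 * X) * |Z n|⁻¹ := by gcongr
      _ = _ := by ring
  · have hh : rho (act (((x ε)⁻¹ : G3) : Matrix (Fin 3) (Fin 3) ℂ) m) - rho m
        = (Real.exp (-b) - Real.exp (-a)) * (Z n)⁻¹ := by
      simp only [rho, ← ha, ← hbdef, div_eq_mul_inv]
      ring
    rw [hh, abs_mul, abs_inv]
    calc |Real.exp (-b) - Real.exp (-a)| * |Z n|⁻¹
        ≤ (K * P * ε * X) * |Z n|⁻¹ := by gcongr
      _ ≤ (T * ε * X) * |Z n|⁻¹ := by gcongr
      _ = _ := by ring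
  · have hh : dk Y m = (2 * qf Y m * Real.exp (-a)) * (Z n)⁻¹ := by
      simp only [rho, dk, ← ha, div_eq_mul_inv]
      ring
    rw [hh, abs_mul, abs_inv]
    calc |2 * qf Y m * Real.exp (-a)| * |Z n|⁻¹ ≤ (2 * B * P * X) * |Z n|⁻¹ := by gcongr
      _ ≤ (T * X) * |Z n|⁻¹ := by gcongr
      _ = _ := by ring
  · have hh : rho m = Real.exp (-a) * (Z n)⁻¹ := by
      simp only [rho, ← ha, div_eq_mul_inv]
    rw [hh, abs_mul, abs_inv, abs_of_nonneg (Real.exp_pos _).le]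
    calc Real.exp (-a) * |Z n|⁻¹ ≤ (1 * X) * |Z n|⁻¹ := by rw [one_mul]; gcongr
      _ ≤ (T * X) * |Z n|⁻¹ := by gcongr
      _ = _ := by ring


/-! ### passage between entries and vectors -/

theorem entry_le {M : Matrix (Fin 3) (Fin 3) ℂ} {K : ℝ} (h : ∀ y : Fin 3 → ℂ, ‖M.mulVec y‖ ≤ K * ‖y‖)
    (i j : Fin 3) : ‖M i j‖ ≤ K := by
  have h1 := h (Pi.single j 1)
  rw [Matrix.mulVec_single_one] at h1
  have h2 : ‖(Pi.single j 1 : Fin 3 → ℂ)‖ = 1 := by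
    rw [Pi.norm_single, norm_one]
  rw [h2, mul_one] at h1
  exact (norm_le_pi_norm (M.col j) i).trans h1

end Ker

theorem Tan.vec {x : ℝ → G3} {Y : Matrix (Fin 3) (Fin 3) ℂ} (h : Tan x Y) : Ker.TanV x Y := by
  obtain ⟨C, hC, h⟩ := h
  refine ⟨3 * C, by positivity, fun ε hε y => ⟨?_, ?_⟩⟩
  · have h1 := Ker.mulVec_le (M := (((x ε)⁻¹ : G3) : Matrix (Fin 3) (Fin 3) ℂ) - 1 + (ε : ℂ) • Y)
      (δ := C * ε ^ 2) (fun i j => (h ε hε i j).2) y
    rw [Matrix.add_mulVec, Matrix.sub_mulVec, Matrix.one_mulVec, Matrix.smul_mulVec] at h1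
    calc _ ≤ 3 * (C * ε ^ 2) * ‖y‖ := h1
      _ = _ := by ring
  · exact Ker.mulVec_le (fun i j => (h ε hε i j).1) y

theorem Ker.TanV.tan {x : ℝ → G3} {Y : Matrix (Fin 3) (Fin 3) ℂ} (h : Ker.TanV x Y) : Tan x Y := by
  obtain ⟨C, hC, h⟩ := h
  refine ⟨C, hC, fun ε hε i j => ⟨?_, ?_⟩⟩
  · exact Ker.entry_le (fun y => (h ε hε y).2) i j
  · have h1 : ∀ y : Fin 3 → ℂ,
        ‖((((x ε)⁻¹ : G3) : Matrix (Fin 3) (Fin 3) ℂ) - 1 + (ε : ℂ) • Y).mulVec y‖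
          ≤ (C * ε ^ 2) * ‖y‖ := by
      intro y
      rw [Matrix.add_mulVec, Matrix.sub_mulVec, Matrix.one_mulVec, Matrix.smul_mulVec]
      exact (h ε hε y).1
    exact Ker.entry_le h1 i j

theorem tan_one : Tan (fun _ => 1) 0 := by
  refine ⟨1, zero_le_one, fun ε hε i j => ⟨?_, ?_⟩⟩
  · rw [Matrix.SpecialLinearGroup.coe_one, Matrix.one_apply]
    split_ifs <;> simp
  · rw [inv_one, Matrix.SpecialLinearGroup.coe_one]
    simp
    positivity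

theorem tan_mul {x x' : ℝ → G3} {Y Y' : Matrix (Fin 3) (Fin 3) ℂ} (h : Tan x Y) (h' : Tan x' Y') :
    Tan (fun ε => x ε * x' ε) (Y + Y') := by
  apply Ker.TanV.tan
  obtain ⟨C, hC, h⟩ := h.vec
  obtain ⟨C', hC', h'⟩ := h'.vec
  obtain ⟨B, hB, hb⟩ := Ker.exists_bd Y
  obtain ⟨B', hB', hb'⟩ := Ker.exists_bd Y'
  refine ⟨C + B' * B + B' * C + C' * (1 + B + C) + C * C', by positivity, fun ε hε y => ⟨?_, ?_⟩⟩
  · obtain ⟨h0, h1⟩ := id hε
    set u := (((x ε)⁻¹ : G3) : Matrix (Fin 3) (Fin 3) ℂ).mulVec y with hu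
    set v := (((x' ε)⁻¹ : G3) : Matrix (Fin 3) (Fin 3) ℂ).mulVec u with hv
    have e0 : (((x ε * x' ε)⁻¹ : G3) : Matrix (Fin 3) (Fin 3) ℂ).mulVec y = v := by
      rw [_root_.mul_inv_rev, Matrix.SpecialLinearGroup.coe_mul, ← Matrix.mulVec_mulVec]
    have e1 : ‖u - y + (ε : ℂ) • Y.mulVec y‖ ≤ C * ε ^ 2 * ‖y‖ := (h ε hε y).1
    have e2 : ‖v - u + (ε : ℂ) • Y'.mulVec u‖ ≤ C' * ε ^ 2 * ‖u‖ := (h' ε hε u).1
    set r := u - y + (ε : ℂ) • Y.mulVec y with hr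
    set r' := v - u + (ε : ℂ) • Y'.mulVec u with hr'
    have hue : u = y - (ε : ℂ) • Y.mulVec y + r := by rw [hr]; abel
    have hn : ‖(ε : ℂ)‖ = ε := by rw [Complex.norm_real, Real.norm_of_nonneg h0.le]
    have hun : ‖u‖ ≤ (1 + B + C) * ‖y‖ := by
      rw [hue]
      calc ‖y - (ε : ℂ) • Y.mulVec y + r‖ ≤ ‖y‖ + ‖(ε : ℂ) • Y.mulVec y‖ + ‖r‖ :=
            (norm_add_le _ _).trans (by gcongr; exact norm_sub_le _ _)
        _ ≤ ‖y‖ + 1 * (B * ‖y‖) + C * 1 ^ 2 * ‖y‖ := by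
            gcongr
            · rw [norm_smul, hn]
              gcongr
              exact hb y
            · exact e1.trans (by gcongr)
        _ = (1 + B + C) * ‖y‖ := by ring
    have key : v - y + (ε : ℂ) • (Y + Y').mulVec y
        = r' + r + (ε : ℂ) • ((ε : ℂ) • Y'.mulVec (Y.mulVec y)) - (ε : ℂ) • Y'.mulVec r := by
      have h3 : v = r' + u - (ε : ℂ) • Y'.mulVec u := by rw [hr']; abel
      have h4 : Y'.mulVec u = Y'.mulVec y - (ε : ℂ) • Y'.mulVec (Y.mulVec y) + Y'.mulVec r := by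
        conv_lhs => rw [hue]
        rw [Matrix.mulVec_add, Matrix.mulVec_sub, Matrix.mulVec_smul]
      rw [h3, h4, Matrix.add_mulVec]
      simp only [smul_add, smul_sub]
      rw [hue]
      abel_nf
    simp only [e0]
    rw [key]
    calc ‖r' + r + (ε : ℂ) • ((ε : ℂ) • Y'.mulVec (Y.mulVec y)) - (ε : ℂ) • Y'.mulVec r‖
        ≤ ‖r'‖ + ‖r‖ + ‖(ε : ℂ) • ((ε : ℂ) • Y'.mulVec (Y.mulVec y))‖ + ‖(ε : ℂ) • Y'.mulVec r‖ :=
          (norm_sub_le _ _).trans (by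
            gcongr
            exact norm_add₃_le)
      _ ≤ C' * ε ^ 2 * ((1 + B + C) * ‖y‖) + C * ε ^ 2 * ‖y‖ + ε * (ε * (B' * (B * ‖y‖)))
          + ε * (B' * (C * ε ^ 2 * ‖y‖)) := by
          gcongr
          · exact e2.trans (by gcongr)
          · rw [norm_smul, norm_smul, hn]
            gcongr
            exact (hb' _).trans (by gcongr; exact hb y)
          · rw [norm_smul, hn]
            gcongr
            exact (hb' _).trans (by gcongr)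
      _ ≤ C' * ε ^ 2 * ((1 + B + C) * ‖y‖) + C * ε ^ 2 * ‖y‖ + ε * (ε * (B' * (B * ‖y‖)))
          + 1 * (B' * (C * ε ^ 2 * ‖y‖)) := by
          gcongr
      _ ≤ (C + B' * B + B' * C + C' * (1 + B + C) + C * C') * ε ^ 2 * ‖y‖ := by
          have : 0 ≤ C * C' * ε ^ 2 * ‖y‖ := by positivity
          nlinarith
  · have e2 : ‖(((x ε * x' ε : G3)) : Matrix (Fin 3) (Fin 3) ℂ).mulVec y‖ ≤ C * (C' * ‖y‖) := by
      rw [Matrix.SpecialLinearGroup.coe_mul, ← Matrix.mulVec_mulVec]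
      exact ((h ε hε _).2).trans (by gcongr; exact (h' ε hε y).2)
    refine e2.trans ?_
    have : 0 ≤ (C + B' * B + B' * C + C' * (1 + B + C)) * ‖y‖ := by positivity
    nlinarith


/-! ### the explicit curves -/

namespace Ker

theorem exp_bd {ε : ℝ} (h0 : 0 < ε) (h1 : ε ≤ 1) :
    |Real.exp ε - 1 - ε| ≤ ε ^ 2 ∧ |Real.exp (-ε) - 1 + ε| ≤ ε ^ 2 ∧
    |Real.exp (-(2 * ε)) - 1 + 2 * ε| ≤ 4 * ε ^ 2 ∧
    |Real.cosh ε - 1| ≤ ε ^ 2 ∧ |Real.sinh ε - ε| ≤ ε ^ 2 ∧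
    |Real.exp ε| ≤ 3 ∧ |Real.exp (-ε)| ≤ 3 ∧ |Real.exp (2 * ε)| ≤ 9 ∧ |Real.cosh ε| ≤ 3 ∧
    |Real.sinh ε| ≤ 3 := by
  have a1 := Real.abs_exp_sub_one_sub_id_le (x := ε) (by rw [abs_of_pos h0]; exact h1)
  have a2 := Real.abs_exp_sub_one_sub_id_le (x := -ε) (by rw [abs_neg, abs_of_pos h0]; exact h1)
  have a3 := exp_sub_sub_le (-(2 * ε))
  rw [max_eq_left (Real.exp_le_one_iff.mpr (by linarith))] at a3
  rw [show Real.exp (-ε) - 1 - -ε = Real.exp (-ε) - 1 + ε by ring, neg_sq] at a2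
  rw [show Real.exp (-(2 * ε)) - 1 - -(2 * ε) = Real.exp (-(2 * ε)) - 1 + 2 * ε by ring] at a3
  have b1 : Real.exp ε ≤ 3 := by
    have h := (abs_le.mp a1).2
    nlinarith
  have b2 : Real.exp (-ε) ≤ 1 := Real.exp_le_one_iff.mpr (by linarith)
  have b3 : Real.exp (2 * ε) ≤ 9 := by
    rw [show 2 * ε = ε + ε by ring, Real.exp_add]
    nlinarith [Real.exp_pos ε]
  have c1 := Real.cosh_eq ε
  have c2 := Real.sinh_eq ε
  have p1 := Real.exp_pos ε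
  have p2 := Real.exp_pos (-ε)
  have p3 := Real.exp_pos (2 * ε)
  obtain ⟨l1, r1⟩ := abs_le.mp a1
  obtain ⟨l2, r2⟩ := abs_le.mp a2
  refine ⟨a1, a2, a3.trans (by nlinarith), ?_, ?_, ?_, ?_, ?_, ?_, ?_⟩
  · rw [c1, abs_le]; constructor <;> linarith
  · rw [c2, abs_le]; constructor <;> linarith
  · rw [abs_of_pos p1]; exact b1
  · rw [abs_of_pos p2]; linarith
  · rw [abs_of_pos p3]; exact b3
  · rw [c1, abs_le]; constructor <;> linarith
  · rw [c2, abs_le]; constructor <;> linarith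

theorem emb_mul' (s t : Matrix.SpecialLinearGroup (Fin 2) ℂ) : emb (s * t) = emb s * emb t := by
  apply Matrix.SpecialLinearGroup.ext
  intro i j
  rw [Matrix.SpecialLinearGroup.coe_mul, Matrix.mul_apply, Fin.sum_univ_three]
  fin_cases i <;> fin_cases j <;>
    simp [emb, Matrix.mul_apply, Fin.sum_univ_two]

theorem emb_one' : emb 1 = 1 := by
  apply Matrix.SpecialLinearGroup.ext
  intro i j
  fin_cases i <;> fin_cases j <;> simp [emb]

theorem emb_inv' (s : Matrix.SpecialLinearGroup (Fin 2) ℂ) : (emb s)⁻¹ = emb s⁻¹ := by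
  apply inv_eq_of_mul_eq_one_right
  rw [← emb_mul', mul_inv_cancel, emb_one']

theorem aT_inv' (t : ℝ) : (aT t)⁻¹ = aT (-t) := by
  apply inv_eq_of_mul_eq_one_right
  apply Matrix.SpecialLinearGroup.ext
  have h1 : Complex.exp (2 * (t : ℂ)) * Complex.exp (-(2 * (t : ℂ))) = 1 := by
    rw [← Complex.exp_add]; simp
  have h2 : Complex.exp (-(t : ℂ)) * Complex.exp (t : ℂ) = 1 := by
    rw [← Complex.exp_add]; simp
  intro i j
  rw [Matrix.SpecialLinearGroup.coe_mul, Matrix.mul_apply, Fin.sum_univ_three]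
  fin_cases i <;> fin_cases j <;>
    simp [aT, h1, h2]

theorem sg_inv (ε : ℝ) (j : Fin 4) : (sg ε j)⁻¹ = sg (-ε) j := by
  apply inv_eq_of_mul_eq_one_right
  apply Matrix.SpecialLinearGroup.ext
  have h0 : Complex.cosh (ε : ℂ) ^ 2 - Complex.sinh (ε : ℂ) ^ 2 = 1 := Complex.cosh_sq_sub_sinh_sq _
  have h1 : Complex.cosh (ε : ℂ) * Complex.cosh (ε : ℂ)
      = 1 + Complex.sinh (ε : ℂ) * Complex.sinh (ε : ℂ) := by linear_combination h0
  have h2 : Complex.exp (ε : ℂ) * Complex.exp (-(ε : ℂ)) = 1 := by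
    rw [← Complex.exp_add]; simp
  have h3 : Complex.exp (-(ε : ℂ)) * Complex.exp (ε : ℂ) = 1 := by
    rw [← Complex.exp_add]; simp
  intro i k
  rw [Matrix.SpecialLinearGroup.coe_mul, Matrix.mul_apply, Fin.sum_univ_two]
  fin_cases j <;> fin_cases i <;> fin_cases k <;>
    simp [sg, h2, h3] <;>
    first
      | linear_combination h0
      | linear_combination h0 + Complex.sinh (ε : ℂ) ^ 2 * Complex.I_sq
      | ring

/-- expansion of a curve in `SL_2(ℂ)` -/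
def Tan2 (s : ℝ → Matrix.SpecialLinearGroup (Fin 2) ℂ) (X : Matrix (Fin 2) (Fin 2) ℂ) : Prop :=
  ∃ C : ℝ, 0 ≤ C ∧ ∀ ε ∈ Set.Ioc (0:ℝ) 1, ∀ i j : Fin 2,
    ‖(s ε : Matrix (Fin 2) (Fin 2) ℂ) i j‖ ≤ C ∧
    ‖(((s ε)⁻¹ : Matrix.SpecialLinearGroup (Fin 2) ℂ) : Matrix (Fin 2) (Fin 2) ℂ) i j
      - (1 : Matrix (Fin 2) (Fin 2) ℂ) i j + (ε : ℂ) * X i j‖ ≤ C * ε ^ 2

theorem Tan2.emb {s : ℝ → Matrix.SpecialLinearGroup (Fin 2) ℂ} {X : Matrix (Fin 2) (Fin 2) ℂ}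
    (h : Tan2 s X) : Tan (fun ε => EX.emb (s ε))
      !![0, 0, 0; 0, X 0 0, X 0 1; 0, X 1 0, X 1 1] := by
  obtain ⟨C, hC, h⟩ := h
  refine ⟨C + 1, by positivity, fun ε hε i j => ?_⟩
  have hε2 := sq_nonneg ε
  have hC1 : C ≤ C + 1 := by linarith
  have h4 : C * ε ^ 2 ≤ (C + 1) * ε ^ 2 := by nlinarith
  have h5 : 0 ≤ (C + 1) * ε ^ 2 := by positivity
  have h6 : 0 ≤ C + 1 := by positivity
  have h7 : (1:ℝ) ≤ C + 1 := by linarith
  have k00 := h ε hε 0 0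
  have k01 := h ε hε 0 1
  have k10 := h ε hε 1 0
  have k11 := h ε hε 1 1
  simp only [emb_inv']
  simp only [Matrix.one_apply_eq] at k00 k11
  rw [Matrix.one_apply_ne (by decide)] at k01 k10
  fin_cases i <;> fin_cases j
  · simp [EX.emb, h5, hC]
  · simp [EX.emb, h5, h6]
  · simp [EX.emb, h5, h6]
  · simp [EX.emb, h5, h6]
  · simp only [EX.emb]
    simp
    exact ⟨k00.1.trans hC1, k00.2.trans h4⟩
  · simp only [EX.emb]
    simp
    exact ⟨k01.1.trans hC1, by simpa using k01.2.trans h4⟩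
  · simp [EX.emb, h5, h6]
  · simp only [EX.emb]
    simp
    exact ⟨k10.1.trans hC1, by simpa using k10.2.trans h4⟩
  · simp only [EX.emb]
    simp
    exact ⟨k11.1.trans hC1, k11.2.trans h4⟩

theorem Tan2.cj {s : ℝ → Matrix.SpecialLinearGroup (Fin 2) ℂ} {X : Matrix (Fin 2) (Fin 2) ℂ}
    (h : Tan2 s X) : Tan2 (fun ε => EX.cj (s ε)) (X.map (starRingEnd ℂ)) := by
  obtain ⟨C, hC, h⟩ := h
  refine ⟨C, hC, fun ε hε i j => ⟨?_, ?_⟩⟩
  · have h1 : ((EX.cj (s ε) : Matrix.SpecialLinearGroup (Fin 2) ℂ) : Matrix (Fin 2) (Fin 2) ℂ) i j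
        = starRingEnd ℂ ((s ε : Matrix (Fin 2) (Fin 2) ℂ) i j) := rfl
    rw [h1, RCLike.norm_conj]
    exact (h ε hε i j).1
  · have h1 : (((EX.cj (s ε))⁻¹ : Matrix.SpecialLinearGroup (Fin 2) ℂ)
        : Matrix (Fin 2) (Fin 2) ℂ) i j
        = starRingEnd ℂ ((((s ε)⁻¹ : Matrix.SpecialLinearGroup (Fin 2) ℂ)
          : Matrix (Fin 2) (Fin 2) ℂ) i j) := by
      have h2 : (EX.cj (s ε))⁻¹ = EX.cj (s ε)⁻¹ := by
        rw [EX.cj, EX.cj, map_inv]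
      rw [h2]
      rfl
    have h3 : (1 : Matrix (Fin 2) (Fin 2) ℂ) i j
        = starRingEnd ℂ ((1 : Matrix (Fin 2) (Fin 2) ℂ) i j) := by
      rw [Matrix.one_apply]; split_ifs <;> simp
    rw [h1, h3, Matrix.map_apply]
    have h4 := (h ε hε i j).2
    rw [← RCLike.norm_conj] at h4
    simpa using h4

theorem tan2_sg (j : Fin 3) : Tan2 (fun ε => sg ε j.succ)
    (![!![0, 1; 1, 0], !![0, -I; I, 0], !![1, 0; 0, -1]] j) := by
  refine ⟨3, by norm_num, fun ε hε i k => ?_⟩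
  obtain ⟨h0, h1⟩ := hε
  obtain ⟨a1, a2, -, a4, a5, b1, b2, -, b4, b5⟩ := exp_bd h0 h1
  have hε2 : 0 ≤ ε ^ 2 := sq_nonneg ε
  have n1 : ∀ r : ℝ, ‖(r : ℂ)‖ = |r| := fun r => by rw [Complex.norm_real, Real.norm_eq_abs]
  have c1 : ‖Complex.cosh (ε : ℂ) - 1‖ ≤ 3 * ε ^ 2 := by
    rw [← Complex.ofReal_cosh, ← Complex.ofReal_one, ← Complex.ofReal_sub, n1]; linarith
  have c2 : ‖-Complex.sinh (ε : ℂ) + ε‖ ≤ 3 * ε ^ 2 := by
    rw [← Complex.ofReal_sinh, ← Complex.ofReal_neg, ← Complex.ofReal_add, n1, ← abs_neg,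
      show -(-Real.sinh ε + ε) = Real.sinh ε - ε by ring]
    linarith
  have c3 : ‖Complex.sinh (ε : ℂ) * I + -((ε : ℂ) * I)‖ ≤ 3 * ε ^ 2 := by
    rw [show Complex.sinh (ε : ℂ) * I + -((ε : ℂ) * I) = -((-Complex.sinh (ε : ℂ) + ε) * I) by ring,
      norm_neg, norm_mul, Complex.norm_I, mul_one]
    exact c2
  have c4 : ‖-(Complex.sinh (ε : ℂ) * I) + (ε : ℂ) * I‖ ≤ 3 * ε ^ 2 := by
    rw [show -(Complex.sinh (ε : ℂ) * I) + (ε : ℂ) * I = (-Complex.sinh (ε : ℂ) + ε) * I by ring,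
      norm_mul, Complex.norm_I, mul_one]
    exact c2
  have c5 : ‖Complex.exp (-(ε : ℂ)) - 1 + ε‖ ≤ 3 * ε ^ 2 := by
    rw [← Complex.ofReal_neg, ← Complex.ofReal_exp, ← Complex.ofReal_one, ← Complex.ofReal_sub,
      ← Complex.ofReal_add, n1]
    linarith
  have c6 : ‖Complex.exp (ε : ℂ) - 1 + -(ε : ℂ)‖ ≤ 3 * ε ^ 2 := by
    rw [← Complex.ofReal_neg, ← Complex.ofReal_exp, ← Complex.ofReal_one, ← Complex.ofReal_sub,
      ← Complex.ofReal_add, n1, ← sub_eq_add_neg]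
    linarith
  have d1 : ‖Complex.cosh (ε : ℂ)‖ ≤ 3 := by rw [← Complex.ofReal_cosh, n1]; exact b4
  have d2 : ‖Complex.sinh (ε : ℂ)‖ ≤ 3 := by rw [← Complex.ofReal_sinh, n1]; exact b5
  have d3 : ‖Complex.exp (ε : ℂ)‖ ≤ 3 := by rw [← Complex.ofReal_exp, n1]; exact b1
  have d4 : ‖Complex.exp (-(ε : ℂ))‖ ≤ 3 := by
    rw [← Complex.ofReal_neg, ← Complex.ofReal_exp, n1]; exact b2
  have d5 : |Real.exp ε| ≤ 3 := b1
  have d6 : |Real.exp (-ε)| ≤ 3 := b2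
  have e0 : (0:ℝ) ≤ 3 * ε ^ 2 := by positivity
  have e1 : (0:ℝ) ≤ 3 := by norm_num
  simp only [sg_inv]
  fin_cases j <;> fin_cases i <;> fin_cases k <;>
    simp [sg, c1, c2, c3, c4, d1, d2, e0, e1] <;>
    first
      | exact ⟨d3, c5⟩
      | exact ⟨d4, c6⟩
      | exact ⟨by simpa using d3, by simpa using c5⟩
      | exact ⟨by simpa using d4, by simpa using c6⟩

end Ker

theorem tan_aT : Tan aT A0 := by
  refine ⟨9, by norm_num, fun ε hε i j => ?_⟩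
  obtain ⟨h0, h1⟩ := hε
  obtain ⟨a1, -, a3, -, -, b1, b2, b3, -, -⟩ := Ker.exp_bd h0 h1
  have hε2 : 0 ≤ ε ^ 2 := sq_nonneg ε
  have n1 : ∀ r : ℝ, ‖(r : ℂ)‖ = |r| := fun r => by rw [Complex.norm_real, Real.norm_eq_abs]
  have e0 : (0:ℝ) ≤ 9 * ε ^ 2 := by positivity
  have e1 : (0:ℝ) ≤ 9 := by norm_num
  have c1 : ‖Complex.exp (-(2 * (ε : ℂ))) - 1 + (ε : ℂ) * 2‖ ≤ 9 * ε ^ 2 := by
    rw [show Complex.exp (-(2 * (ε : ℂ))) - 1 + (ε : ℂ) * 2
      = ((Real.exp (-(2 * ε)) - 1 + 2 * ε : ℝ) : ℂ) by push_cast; ring, n1]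
    linarith
  have c2 : ‖Complex.exp (ε : ℂ) - 1 + -(ε : ℂ)‖ ≤ 9 * ε ^ 2 := by
    rw [show Complex.exp (ε : ℂ) - 1 + -(ε : ℂ)
      = ((Real.exp ε - 1 - ε : ℝ) : ℂ) by push_cast; ring, n1]
    linarith
  have d1 : ‖Complex.exp (2 * (ε : ℂ))‖ ≤ 9 := by
    rw [show Complex.exp (2 * (ε : ℂ)) = ((Real.exp (2 * ε) : ℝ) : ℂ) by push_cast; ring_nf, n1]
    exact b3
  have d2 : ‖Complex.exp (-(ε : ℂ))‖ ≤ 9 := by
    rw [show Complex.exp (-(ε : ℂ)) = ((Real.exp (-ε) : ℝ) : ℂ) by push_cast; ring_nf, n1]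
    linarith
  rw [Ker.aT_inv']
  fin_cases i <;> fin_cases j
  · simp only [aT, A0]
    simp
    exact ⟨by simpa using d1, by simpa using c1⟩
  · simp [aT, A0, e0]
  · simp [aT, A0, e0]
  · simp [aT, A0, e0]
  · simp only [aT, A0]
    simp
    exact ⟨by simpa using d2, by simpa using c2⟩
  · simp [aT, A0, e0]
  · simp [aT, A0, e0]
  · simp [aT, A0, e0]
  · simp only [aT, A0]
    simp
    exact ⟨by simpa using d2, by simpa using c2⟩

theorem tan_sg (j : Fin 3) : Tan (fun ε => emb (sg ε j.succ)) (PM j) := by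
  have h := (Ker.tan2_sg j).emb
  fin_cases j <;> simpa [PM] using h

theorem tan_cj_sg (j : Fin 3) : Tan (fun ε => emb (cj (sg ε j.succ))) (PMc j) := by
  have h := (Ker.tan2_sg j).cj.emb
  fin_cases j <;> simpa [PMc] using h

theorem Tan.kernel {x : ℝ → G3} {Y : Matrix (Fin 3) (Fin 3) ℂ} (h : Tan x Y) (n : ℕ) :
    ∃ C c : ℝ, 0 ≤ C ∧ 0 < c ∧ ∀ ε ∈ Set.Ioc (0:ℝ) 1, ∀ m : E n,
      |rho (act (((x ε)⁻¹ : G3) : Matrix (Fin 3) (Fin 3) ℂ) m) - rho m - ε * dk Y m|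
        ≤ C * ε ^ 2 * Real.exp (-c * q m) := by
  obtain ⟨C, c, hC, hc, h⟩ := h.vec.tanQ.ker n
  exact ⟨C, c, hC, hc, fun ε hε m => (h ε hε m).1⟩

/-- the first difference of the kernel -/
theorem Tan.kernel_one {x : ℝ → G3} {Y : Matrix (Fin 3) (Fin 3) ℂ} (h : Tan x Y) (n : ℕ) :
    ∃ C c : ℝ, 0 ≤ C ∧ 0 < c ∧ ∀ ε ∈ Set.Ioc (0:ℝ) 1, ∀ m : E n,
      |rho (act (((x ε)⁻¹ : G3) : Matrix (Fin 3) (Fin 3) ℂ) m) - rho m|
        ≤ C * ε * Real.exp (-c * q m) := by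
  obtain ⟨C, c, hC, hc, h⟩ := h.vec.tanQ.ker n
  exact ⟨C, c, hC, hc, fun ε hε m => (h ε hε m).2.1⟩

/-- the derivative kernel is a Gaussian weight -/
theorem dk_le {n : ℕ} (Y : Matrix (Fin 3) (Fin 3) ℂ) :
    ∃ C c : ℝ, 0 ≤ C ∧ 0 < c ∧ ∀ m : E n, |dk Y m| ≤ C * Real.exp (-c * q m) := by
  obtain ⟨B, hB, hb⟩ := Ker.qf_bd Y
  obtain ⟨P, hP, hp⟩ := Ker.poly_exp one_pos
  refine ⟨2 * B * P * |Z n|⁻¹, 1 / 2, by positivity, by positivity, fun m => ?_⟩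
  have h1 := hb n m
  have h2 := (hp (q m) (Ker.q_nonneg' m)).1
  rw [one_mul] at h2
  have hh : dk Y m = (2 * qf Y m * Real.exp (-q m)) * (Z n)⁻¹ := by
    simp only [rho, dk, div_eq_mul_inv]
    ring
  rw [hh, abs_mul, abs_inv]
  have h3 : |2 * qf Y m * Real.exp (-q m)| ≤ 2 * B * P * Real.exp (-(1 / 2) * q m) := by
    rw [abs_mul, abs_mul, abs_of_nonneg (Real.exp_pos _).le, abs_of_nonneg (zero_le_two)]
    calc 2 * |qf Y m| * Real.exp (-q m) ≤ 2 * (B * q m) * Real.exp (-q m) := by gcongr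
      _ = 2 * B * (q m * Real.exp (-q m)) := by ring
      _ ≤ 2 * B * (P * Real.exp (-(1 / 2) * q m)) := by gcongr
      _ = 2 * B * P * Real.exp (-(1 / 2) * q m) := by ring
  calc |2 * qf Y m * Real.exp (-q m)| * |Z n|⁻¹
      ≤ (2 * B * P * Real.exp (-(1 / 2) * q m)) * |Z n|⁻¹ := by gcongr
    _ = _ := by ring

end Pool.Agent.Helper87.EX
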