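import Pool.Agent.Helper24.EXJ.Defs

/-!
# Project EX, module J: no invariant four-form (finite certificate)
-/

set_option autoImplicit false

namespace Pool.Agent.Helper87.EX

open Complex Matrix
open scoped BigOperators

namespace Cert

/-- matrices -/
abbrev M3 := Matrix (Fin 3) (Fin 3) ℂ

noncomputable def X12 : M3 := !![0, 1, 0; 1, 0, 0; 0, 0, 0]
noncomputable def Y12 : M3 := !![0, -I, 0; I, 0, 0; 0, 0, 0]
noncomputable def X13 : M3 := !![0, 0, 1; 0, 0, 0; 1, 0, 0]
noncomputable def Y13 : M3 := !![0, 0, -I; 0, 0, 0; I, 0, 0]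
noncomputable def X23 : M3 := !![0, 0, 0; 0, 0, 1; 0, 1, 0]
noncomputable def Y23 : M3 := !![0, 0, 0; 0, 0, -I; 0, I, 0]
/-- real diagonal matrices -/
noncomputable def Hd (a b c : ℝ) : M3 := !![(a : ℂ), 0, 0; 0, (b : ℂ), 0; 0, 0, (c : ℂ)]

/-- diagonal unitary matrices -/
noncomputable def T3 (a b c : ℂ) : M3 := !![a, 0, 0; 0, b, 0; 0, 0, c]
/-- rotations in the first two coordinates -/
noncomputable def R3 (c s : ℝ) : M3 := !![(c : ℂ), -(s : ℂ), 0; (s : ℂ), (c : ℂ), 0; 0, 0, 1]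
/-- cyclic permutation -/
noncomputable def P3 : M3 := !![0, 0, 1; 1, 0, 0; 0, 1, 0]

variable (w : AlternatingMap ℝ M3 ℝ (Fin 4))

theorem add0 (a a' b c d : M3) : w ![a + a', b, c, d] = w ![a, b, c, d] + w ![a', b, c, d] := by
  have h := w.map_update_add ![a, b, c, d] 0 a a'
  have e : ∀ x, Function.update ![a, b, c, d] 0 x = ![x, b, c, d] := by
    intro x; funext i; fin_cases i <;> rfl
  rwa [e, e, e] at h

theorem add1 (a b b' c d : M3) : w ![a, b + b', c, d] = w ![a, b, c, d] + w ![a, b', c, d] := by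
  have h := w.map_update_add ![a, b, c, d] 1 b b'
  have e : ∀ x, Function.update ![a, b, c, d] 1 x = ![a, x, c, d] := by
    intro x; funext i; fin_cases i <;> rfl
  rwa [e, e, e] at h

theorem add2 (a b c c' d : M3) : w ![a, b, c + c', d] = w ![a, b, c, d] + w ![a, b, c', d] := by
  have h := w.map_update_add ![a, b, c, d] 2 c c'
  have e : ∀ x, Function.update ![a, b, c, d] 2 x = ![a, b, x, d] := by
    intro x; funext i; fin_cases i <;> rfl
  rwa [e, e, e] at h

theorem add3 (a b c d d' : M3) : w ![a, b, c, d + d'] = w ![a, b, c, d] + w ![a, b, c, d'] := by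
  have h := w.map_update_add ![a, b, c, d] 3 d d'
  have e : ∀ x, Function.update ![a, b, c, d] 3 x = ![a, b, c, x] := by
    intro x; funext i; fin_cases i <;> rfl
  rwa [e, e, e] at h

theorem smul0 (t : ℝ) (a b c d : M3) : w ![t • a, b, c, d] = t * w ![a, b, c, d] := by
  have h := w.map_update_smul ![a, b, c, d] 0 t a
  have e : ∀ x, Function.update ![a, b, c, d] 0 x = ![x, b, c, d] := by
    intro x; funext i; fin_cases i <;> rfl
  rwa [e, e, smul_eq_mul] at h

theorem smul1 (t : ℝ) (a b c d : M3) : w ![a, t • b, c, d] = t * w ![a, b, c, d] := by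
  have h := w.map_update_smul ![a, b, c, d] 1 t b
  have e : ∀ x, Function.update ![a, b, c, d] 1 x = ![a, x, c, d] := by
    intro x; funext i; fin_cases i <;> rfl
  rwa [e, e, smul_eq_mul] at h

theorem smul2 (t : ℝ) (a b c d : M3) : w ![a, b, t • c, d] = t * w ![a, b, c, d] := by
  have h := w.map_update_smul ![a, b, c, d] 2 t c
  have e : ∀ x, Function.update ![a, b, c, d] 2 x = ![a, b, x, d] := by
    intro x; funext i; fin_cases i <;> rfl
  rwa [e, e, smul_eq_mul] at h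

theorem smul3 (t : ℝ) (a b c d : M3) : w ![a, b, c, t • d] = t * w ![a, b, c, d] := by
  have h := w.map_update_smul ![a, b, c, d] 3 t d
  have e : ∀ x, Function.update ![a, b, c, d] 3 x = ![a, b, c, x] := by
    intro x; funext i; fin_cases i <;> rfl
  rwa [e, e, smul_eq_mul] at h

theorem swap01 (a b c d : M3) : w ![b, a, c, d] = -w ![a, b, c, d] := by
  rw [← w.map_swap ![a, b, c, d] (i := 0) (j := 1) (by decide)]
  congr 1; funext i; fin_cases i <;> rfl

theorem swap12 (a b c d : M3) : w ![a, c, b, d] = -w ![a, b, c, d] := by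
  rw [← w.map_swap ![a, b, c, d] (i := 1) (j := 2) (by decide)]
  congr 1; funext i; fin_cases i <;> rfl

theorem swap23 (a b c d : M3) : w ![a, b, d, c] = -w ![a, b, c, d] := by
  rw [← w.map_swap ![a, b, c, d] (i := 2) (j := 3) (by decide)]
  congr 1; funext i; fin_cases i <;> rfl

theorem zero03 (a b c : M3) : w ![a, b, c, a] = 0 :=
  w.map_eq_zero_of_eq ![a, b, c, a] (i := 0) (j := 3) rfl (by decide)

theorem zero01 (a b c : M3) : w ![a, a, b, c] = 0 :=
  w.map_eq_zero_of_eq ![a, a, b, c] (i := 0) (j := 1) rfl (by decide)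

variable (hw : ∀ u : M3, u * uᴴ = 1 → u.det = 1 →
      ∀ Y : Fin 4 → M3, w (fun j => u * Y j * uᴴ) = w Y)

include hw in
theorem conj4 (u : M3) (hu : u * uᴴ = 1) (hd : u.det = 1) {a b c d a' b' c' d' : M3}
    (ha : u * a * uᴴ = a') (hb : u * b * uᴴ = b') (hc : u * c * uᴴ = c') (hd' : u * d * uᴴ = d') :
    w ![a', b', c', d'] = w ![a, b, c, d] := by
  rw [← hw u hu hd ![a, b, c, d]]
  congr 1
  funext i
  fin_cases i
  · exact ha.symm
  · exact hb.symm
  · exact hc.symm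
  · exact hd'.symm

theorem T3_unit {a b c : ℂ} (ha : a * (starRingEnd ℂ) a = 1) (hb : b * (starRingEnd ℂ) b = 1)
    (hc : c * (starRingEnd ℂ) c = 1) : T3 a b c * (T3 a b c)ᴴ = 1 := by
  ext i j
  fin_cases i <;> fin_cases j <;>
    simp [T3, Matrix.mul_apply, Fin.sum_univ_three, Matrix.conjTranspose_apply, ha, hb, hc]

theorem T3_det {a b c : ℂ} (h : a * b * c = 1) : (T3 a b c).det = 1 := by
  rw [Matrix.det_fin_three]
  simp [T3, h]

theorem T3_H {a b c : ℂ} (ha : a * (starRingEnd ℂ) a = 1) (hb : b * (starRingEnd ℂ) b = 1)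
    (hc : c * (starRingEnd ℂ) c = 1) (x y z : ℝ) :
    T3 a b c * Hd x y z * (T3 a b c)ᴴ = Hd x y z := by
  ext i j
  fin_cases i <;> fin_cases j <;>
    simp [T3, Hd, Matrix.mul_apply, Fin.sum_univ_three, Matrix.conjTranspose_apply]
  · linear_combination (x : ℂ) * ha
  · linear_combination (y : ℂ) * hb
  · linear_combination (z : ℂ) * hc

end Cert

open Cert in
/-- `Λ^4 su(3)^*` has no invariants: the value needed -/
theorem cert (w : AlternatingMap ℝ (Matrix (Fin 3) (Fin 3) ℂ) ℝ (Fin 4))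
    (hw : ∀ u : Matrix (Fin 3) (Fin 3) ℂ, u * uᴴ = 1 → u.det = 1 →
      ∀ Y : Fin 4 → Matrix (Fin 3) (Fin 3) ℂ, w (fun j => u * Y j * uᴴ) = w Y) :
    w ![A0, PM 0, PM 1, PM 2] = 0 := by
  -- unit numbers
  have u1 : (1:ℂ) * (starRingEnd ℂ) 1 = 1 := by simp
  have uI : I * (starRingEnd ℂ) I = 1 := by simp
  have uI' : (-I) * (starRingEnd ℂ) (-I) = 1 := by simp
  have um : (-1:ℂ) * (starRingEnd ℂ) (-1) = 1 := by simp
  -- step 1 : conjugation by `diag(1, I, -I)`
  have s1 : ∀ x y z : ℝ, w ![Hd x y z, Y12, -X23, X13] = w ![Hd x y z, X12, X23, Y13] := by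
    intro x y z
    refine conj4 w hw (T3 1 I (-I)) (T3_unit u1 uI uI') (T3_det (by simp))
      (T3_H u1 uI uI' x y z) ?_ ?_ ?_
    all_goals
      ext i j
      fin_cases i <;> fin_cases j <;>
        simp [T3, X12, Y12, X23, X13, Y13, Matrix.mul_apply, Fin.sum_univ_three,
          Matrix.conjTranspose_apply]
  -- step 2 : cyclic permutation
  have s2 : ∀ x y z : ℝ, w ![Hd z x y, X23, X13, -Y12] = w ![Hd x y z, X12, X23, Y13] := by
    intro x y z
    refine conj4 w hw P3 ?_ ?_ ?_ ?_ ?_ ?_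
    · ext i j
      fin_cases i <;> fin_cases j <;>
        simp [P3, Matrix.mul_apply, Fin.sum_univ_three, Matrix.conjTranspose_apply]
    · rw [Matrix.det_fin_three]; simp [P3]
    all_goals
      ext i j
      fin_cases i <;> fin_cases j <;>
        simp [P3, Hd, X12, Y12, X23, X13, Y13, Matrix.mul_apply, Fin.sum_univ_three,
          Matrix.conjTranspose_apply]
  have neg1 : ∀ a b c d : M3, w ![a, b, -c, d] = -w ![a, b, c, d] := by
    intro a b c d
    have := smul2 w (-1) a b c d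
    simpa using this
  have neg3 : ∀ a b c d : M3, w ![a, b, c, -d] = -w ![a, b, c, d] := by
    intro a b c d
    have := smul3 w (-1) a b c d
    simpa using this
  have neg0 : ∀ a b c d : M3, w ![-a, b, c, d] = -w ![a, b, c, d] := by
    intro a b c d
    have := smul0 w (-1) a b c d
    simpa using this
  have s3 : ∀ x y z : ℝ, w ![Hd z x y, X12, X23, Y13] = w ![Hd x y z, X12, X23, Y13] := by
    intro x y z
    rw [← s1 z x y, ← s2 x y z, neg1, neg3, swap12 w _ X23 Y12 X13, swap23 w _ X23 X13 Y12]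
    ring
  have hadd : ∀ x y z x' y' z' : ℝ, Hd (x + x') (y + y') (z + z') = Hd x y z + Hd x' y' z' := by
    intro x y z x' y' z'
    ext i j
    fin_cases i <;> fin_cases j <;> simp [Hd]
  have hsm : ∀ t x y z : ℝ, Hd (t * x) (t * y) (t * z) = t • Hd x y z := by
    intro t x y z
    ext i j
    fin_cases i <;> fin_cases j <;> simp [Hd]
  have x0 : w ![Hd 1 (-1) 0, X12, X23, Y13] = 0 := by
    have h1 := s3 1 (-1) 0
    have h2 := s3 0 1 (-1)
    have h3 : Hd (-1) 0 1 = -(Hd 1 (-1) 0 + Hd 0 1 (-1)) := by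
      ext i j
      fin_cases i <;> fin_cases j <;> simp [Hd]
    rw [h3, neg0, add0] at h2
    linarith
  have x1 : w ![Hd 0 1 (-1), X12, X23, Y13] = 0 := by rw [s3 1 (-1) 0, x0]
  have hA3 : Hd 1 1 (-2) = Hd 1 (-1) 0 + (2:ℝ) • Hd 0 1 (-1) := by
    ext i j
    fin_cases i <;> fin_cases j <;> simp [Hd] <;> norm_num
  have z3 : w ![X12, Hd 1 1 (-2), X23, Y13] = 0 := by
    rw [swap01, hA3, add0, smul0, x0, x1]; simp
  -- step 3 : conjugation by `diag(I, I, -1)`
  have s4 : ∀ x y z : ℝ, w ![X12, Hd x y z, Y23, -X13] = w ![X12, Hd x y z, X23, Y13] := by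
    intro x y z
    refine conj4 w hw (T3 I I (-1)) (T3_unit uI uI um) (T3_det (by simp)) ?_
      (T3_H uI uI um x y z) ?_ ?_
    all_goals
      ext i j
      fin_cases i <;> fin_cases j <;>
        simp [T3, X12, Y23, X23, X13, Y13, Matrix.mul_apply, Fin.sum_univ_three,
          Matrix.conjTranspose_apply]
  have z6 : w ![X12, Hd 1 1 (-2), X13, Y23] = 0 := by
    have h := s4 1 1 (-2)
    rw [z3, neg3, swap23] at h
    linarith
  -- parity under `diag(-1, 1, -1)`
  have tpar : ∀ x y z : ℝ, T3 (-1) 1 (-1) * Hd x y z * (T3 (-1) 1 (-1))ᴴ = Hd x y z :=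
    T3_H um u1 um
  have pX12 : T3 (-1) 1 (-1) * X12 * (T3 (-1) 1 (-1))ᴴ = (-1 : ℝ) • X12 := by
    ext i j
    fin_cases i <;> fin_cases j <;>
      simp [T3, X12, Matrix.mul_apply, Fin.sum_univ_three, Matrix.conjTranspose_apply]
  have pX23 : T3 (-1) 1 (-1) * X23 * (T3 (-1) 1 (-1))ᴴ = (-1 : ℝ) • X23 := by
    ext i j
    fin_cases i <;> fin_cases j <;>
      simp [T3, X23, Matrix.mul_apply, Fin.sum_univ_three, Matrix.conjTranspose_apply]
  have pY23 : T3 (-1) 1 (-1) * Y23 * (T3 (-1) 1 (-1))ᴴ = (-1 : ℝ) • Y23 := by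
    ext i j
    fin_cases i <;> fin_cases j <;>
      simp [T3, Y23, Matrix.mul_apply, Fin.sum_univ_three, Matrix.conjTranspose_apply]
  have pX13 : T3 (-1) 1 (-1) * X13 * (T3 (-1) 1 (-1))ᴴ = X13 := by
    ext i j
    fin_cases i <;> fin_cases j <;>
      simp [T3, X13, Matrix.mul_apply, Fin.sum_univ_three, Matrix.conjTranspose_apply]
  have pY13 : T3 (-1) 1 (-1) * Y13 * (T3 (-1) 1 (-1))ᴴ = Y13 := by
    ext i j
    fin_cases i <;> fin_cases j <;>
      simp [T3, Y13, Matrix.mul_apply, Fin.sum_univ_three, Matrix.conjTranspose_apply]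
  have uT := T3_unit um u1 um
  have dT : (T3 (-1) 1 (-1)).det = 1 := T3_det (by simp)
  have z1 : w ![Hd 1 (-1) 0, Hd 1 1 (-2), X23, Y13] = 0 := by
    have h := conj4 w hw _ uT dT (tpar 1 (-1) 0) (tpar 1 1 (-2)) pX23 pY13
    rw [smul2] at h
    linarith
  have z2 : w ![Hd 1 (-1) 0, Hd 1 1 (-2), X13, Y23] = 0 := by
    have h := conj4 w hw _ uT dT (tpar 1 (-1) 0) (tpar 1 1 (-2)) pX13 pY23
    rw [smul3] at h
    linarith
  have z4 : w ![X12, Hd 1 1 (-2), X23, Y23] = 0 := by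
    have h := conj4 w hw _ uT dT pX12 (tpar 1 1 (-2)) pX23 pY23
    rw [smul3, smul2, smul0] at h
    linarith
  have z5 : w ![X12, Hd 1 1 (-2), X13, Y13] = 0 := by
    have h := conj4 w hw _ uT dT pX12 (tpar 1 1 (-2)) pX13 pY13
    rw [smul0] at h
    linarith
  -- rotations
  have rU : ∀ c s : ℝ, c ^ 2 + s ^ 2 = 1 → R3 c s * (R3 c s)ᴴ = 1 := by
    intro c s h
    have h' : (c : ℂ) ^ 2 + (s : ℂ) ^ 2 = 1 := by exact_mod_cast h
    ext i j
    fin_cases i <;> fin_cases j <;>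
      simp [R3, Matrix.mul_apply, Fin.sum_univ_three, Matrix.conjTranspose_apply] <;>
      first
        | ring1
        | linear_combination h'
  have rD : ∀ c s : ℝ, c ^ 2 + s ^ 2 = 1 → (R3 c s).det = 1 := by
    intro c s h
    have h' : (c : ℂ) ^ 2 + (s : ℂ) ^ 2 = 1 := by exact_mod_cast h
    rw [Matrix.det_fin_three]
    simp [R3]
    linear_combination h'
  have rH : ∀ c s : ℝ, R3 c s * Hd 1 (-1) 0 * (R3 c s)ᴴ
      = (c ^ 2 - s ^ 2 : ℝ) • Hd 1 (-1) 0 + (2 * (c * s) : ℝ) • X12 := by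
    intro c s
    ext i j
    fin_cases i <;> fin_cases j <;>
      simp [R3, Hd, X12, Matrix.mul_apply, Fin.sum_univ_three, Matrix.conjTranspose_apply] <;>
      ring
  have rA : ∀ c s : ℝ, c ^ 2 + s ^ 2 = 1 → R3 c s * Hd 1 1 (-2) * (R3 c s)ᴴ = Hd 1 1 (-2) := by
    intro c s h
    have h' : (c : ℂ) ^ 2 + (s : ℂ) ^ 2 = 1 := by exact_mod_cast h
    ext i j
    fin_cases i <;> fin_cases j <;>
      simp [R3, Hd, Matrix.mul_apply, Fin.sum_univ_three, Matrix.conjTranspose_apply] <;>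
      first
        | ring1
        | linear_combination h'
  have rX23 : ∀ c s : ℝ, R3 c s * X23 * (R3 c s)ᴴ = c • X23 + (-s) • X13 := by
    intro c s
    ext i j
    fin_cases i <;> fin_cases j <;>
      simp [R3, X23, X13, Matrix.mul_apply, Fin.sum_univ_three, Matrix.conjTranspose_apply]
  have rY13 : ∀ c s : ℝ, R3 c s * Y13 * (R3 c s)ᴴ = c • Y13 + s • Y23 := by
    intro c s
    ext i j
    fin_cases i <;> fin_cases j <;>
      simp [R3, Y23, Y13, Matrix.mul_apply, Fin.sum_univ_three, Matrix.conjTranspose_apply] <;>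
      ring
  have rX13 : ∀ c s : ℝ, R3 c s * X13 * (R3 c s)ᴴ = c • X13 + s • X23 := by
    intro c s
    ext i j
    fin_cases i <;> fin_cases j <;>
      simp [R3, X23, X13, Matrix.mul_apply, Fin.sum_univ_three, Matrix.conjTranspose_apply]
  -- `b = -a`
  have hba : w ![Hd 1 (-1) 0, Hd 1 1 (-2), X13, Y13] = -w ![Hd 1 (-1) 0, Hd 1 1 (-2), X23, Y23] := by
    have h := conj4 w hw _ (rU 0 (-1) (by norm_num)) (rD 0 (-1) (by norm_num)) (rH 0 (-1))
      (rA 0 (-1) (by norm_num)) (rX13 0 (-1)) (rY13 0 (-1))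
    simp only [zero_smul, zero_add, mul_neg, mul_one, mul_zero, neg_zero, add_zero] at h
    rw [smul3, smul2, smul0] at h
    linarith
  -- the rotation with cosine `3/5`
  have hab : w ![Hd 1 (-1) 0, Hd 1 1 (-2), X23, Y23] = w ![Hd 1 (-1) 0, Hd 1 1 (-2), X13, Y13] := by
    have h := conj4 w hw _ (rU (3/5) (4/5) (by norm_num)) (rD (3/5) (4/5) (by norm_num))
      (rH (3/5) (4/5)) (rA (3/5) (4/5) (by norm_num)) (rX23 (3/5) (4/5)) (rY13 (3/5) (4/5))
    simp only [add0, add2, add3, smul0, smul2, smul3] at h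
    rw [z1, z2, z3, z4, z5, z6] at h
    linarith
  have ha : w ![Hd 1 (-1) 0, Hd 1 1 (-2), X23, Y23] = 0 := by linarith
  have hA0 : A0 = (2:ℝ) • Hd 1 (-1) 0 + Hd 0 1 (-1) := by
    ext i j
    fin_cases i <;> fin_cases j <;> simp [Hd, A0] <;> norm_num
  have hP2 : PM 2 = Hd 0 1 (-1) := by
    ext i j
    fin_cases i <;> fin_cases j <;> simp [Hd, PM]
  have hP0 : PM 0 = X23 := rfl
  have hP1 : PM 1 = Y23 := rfl
  rw [hA0, hP0, hP1, hP2, add0, smul0, zero03, add_zero]
  rw [hA3, add1, zero01, smul1, zero_add] at ha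
  have h1 : w ![Hd 1 (-1) 0, X23, Y23, Hd 0 1 (-1)] = w ![Hd 1 (-1) 0, Hd 0 1 (-1), X23, Y23] := by
    rw [swap23, swap12]; ring
  rw [h1]
  exact ha

end Pool.Agent.Helper87.EX
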