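import Pool.Agent.Helper87.EX.C

/-!
# Project EX, module J (jets): definitions

`x : ℝ → G3` is a curve with `x(ε)⁻¹ = 1 - ε Y + O(ε^2)`, `0 < ε ≤ 1` (`Tan x Y`).
For `F` alternating, `HH F (1, x_1(ε), ..., x_r(ε)) = ε^r wF F Y + O(ε^(r+1))` (theorem `jet` in `Jet.lean`).
-/

set_option autoImplicit false

namespace Pool.Agent.Helper87.EX

open MeasureTheory Complex Matrix
open scoped BigOperators

/-- the real quadratic form `<m, Y m>` -/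
noncomputable def qf {n : ℕ} (Y : Matrix (Fin 3) (Fin 3) ℂ) (m : E n) : ℝ :=
  ∑ j, (star (m j) ⬝ᵥ Y.mulVec (m j)).re

/-- derivative of the Gaussian kernel in the direction `Y` -/
noncomputable def dk {n : ℕ} (Y : Matrix (Fin 3) (Fin 3) ℂ) (m : E n) : ℝ := 2 * qf Y m * rho m

/-- the leading form -/
noncomputable def wF {r n : ℕ} (F : (Fin (r + 1) → E n) → ℝ)
    (Y : Fin r → Matrix (Fin 3) (Fin 3) ℂ) : ℝ :=
  ∫ m : Fin (r + 1) → E n, F m * (rho (m 0) * ∏ j : Fin r, (2 * qf (Y j) (m j.succ) * rho (m j.succ)))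

/-- `x(ε)` is bounded and `x(ε)⁻¹ = 1 - ε Y + O(ε^2)` for `0 < ε ≤ 1` -/
def Tan (x : ℝ → G3) (Y : Matrix (Fin 3) (Fin 3) ℂ) : Prop :=
  ∃ C : ℝ, 0 ≤ C ∧ ∀ ε ∈ Set.Ioc (0:ℝ) 1, ∀ i j : Fin 3,
    ‖(x ε : Matrix (Fin 3) (Fin 3) ℂ) i j‖ ≤ C ∧
    ‖(((x ε)⁻¹ : G3) : Matrix (Fin 3) (Fin 3) ℂ) i j - (1 : Matrix (Fin 3) (Fin 3) ℂ) i j
      + (ε : ℂ) * Y i j‖ ≤ C * ε ^ 2

/-- the Pauli matrices in the lower block -/
noncomputable def PM : Fin 3 → Matrix (Fin 3) (Fin 3) ℂ :=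
  ![!![0, 0, 0; 0, 0, 1; 0, 1, 0], !![0, 0, 0; 0, 0, -I; 0, I, 0], !![0, 0, 0; 0, 1, 0; 0, 0, -1]]

/-- their complex conjugates -/
noncomputable def PMc : Fin 3 → Matrix (Fin 3) (Fin 3) ℂ :=
  ![!![0, 0, 0; 0, 0, 1; 0, 1, 0], !![0, 0, 0; 0, 0, I; 0, -I, 0], !![0, 0, 0; 0, 1, 0; 0, 0, -1]]

/-- `diag(2, -1, -1)` -/
noncomputable def A0 : Matrix (Fin 3) (Fin 3) ℂ := !![2, 0, 0; 0, -1, 0; 0, 0, -1]

end Pool.Agent.Helper87.EX
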