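import Pool.Agent.Helper24.EXJ.Jet
import Pool.Agent.Helper24.EXJ.Alg

/-!
# Project EX, module J: the leading form is alternating multilinear and `SU(3)` invariant
-/

set_option autoImplicit false

namespace Pool.Agent.Helper87.EX

open MeasureTheory Complex Matrix
open scoped BigOperators

theorem qf_add {n : ℕ} (Y Y' : Matrix (Fin 3) (Fin 3) ℂ) (m : E n) :
    qf (Y + Y') m = qf Y m + qf Y' m := by
  unfold qf
  rw [← Finset.sum_add_distrib]
  refine Finset.sum_congr rfl fun j _ => ?_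
  rw [Matrix.add_mulVec, dotProduct_add, Complex.add_re]

theorem qf_smul {n : ℕ} (a : ℝ) (Y : Matrix (Fin 3) (Fin 3) ℂ) (m : E n) :
    qf (a • Y) m = a * qf Y m := by
  unfold qf
  rw [Finset.mul_sum]
  refine Finset.sum_congr rfl fun j _ => ?_
  rw [Matrix.smul_mulVec, dotProduct_smul, Complex.smul_re, smul_eq_mul]

/-- `Y ↦ dk Y` as a linear map into the weights -/
noncomputable def dkL (n : ℕ) : Matrix (Fin 3) (Fin 3) ℂ →ₗ[ℝ] Wt n where
  toFun Y := ⟨fun m : E n => dk Y m, dk_wt Y⟩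
  map_add' Y Y' := by
    ext m
    simp only [Submodule.coe_add, Pi.add_apply, dk, qf_add]
    ring
  map_smul' a Y := by
    ext m
    simp only [Submodule.coe_smul, Pi.smul_apply, dk, qf_smul, RingHom.id_apply, smul_eq_mul]
    ring

/-- the leading form as an alternating map -/
theorem wF_alt {r n : ℕ} {F : (Fin (r + 1) → E n) → ℝ} (hG : GI F) (hA : Alter F) :
    ∃ w : AlternatingMap ℝ (Matrix (Fin 3) (Fin 3) ℂ) ℝ (Fin r), ∀ Y, w Y = wF F Y := by
  refine ⟨((II F hG hA).curryLeft ⟨fun m : E n => rho m, rho_wt⟩).compLinearMap (dkL n),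
    fun Y => ?_⟩
  rw [AlternatingMap.compLinearMap_apply, AlternatingMap.curryLeft_apply_apply, II_apply, wF]
  refine integral_congr_ae (ae_of_all _ fun m => ?_)
  simp only
  rw [Fin.prod_univ_succ]
  rfl

theorem q_unitary {n : ℕ} (u : Matrix (Fin 3) (Fin 3) ℂ) (hu : u * uᴴ = 1) (m : E n) :
    q (act u m) = q m := by
  have hu' : uᴴ * u = 1 := by rwa [mul_eq_one_comm] at hu
  unfold q act
  refine Finset.sum_congr rfl fun j _ => ?_
  have h : ∀ v : Fin 3 → ℂ, ((∑ i, Complex.normSq (v i) : ℝ) : ℂ) = star v ⬝ᵥ v := by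
    intro v
    simp only [dotProduct, Pi.star_apply, RCLike.star_def, Complex.ofReal_sum]
    exact Finset.sum_congr rfl fun i _ => (Complex.normSq_eq_conj_mul_self)
  have h2 : star (u.mulVec (m j)) ⬝ᵥ u.mulVec (m j) = star (m j) ⬝ᵥ (m j) := by
    rw [Matrix.star_mulVec, Matrix.dotProduct_mulVec, Matrix.vecMul_vecMul, hu', Matrix.vecMul_one]
  have h3 := (h (u.mulVec (m j))).trans (h2.trans (h (m j)).symm)
  exact_mod_cast h3

theorem qf_unitary {n : ℕ} (u : Matrix (Fin 3) (Fin 3) ℂ) (hu : u * uᴴ = 1)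
    (Y : Matrix (Fin 3) (Fin 3) ℂ) (m : E n) :
    qf (u * Y * uᴴ) (act u m) = qf Y m := by
  have hu' : uᴴ * u = 1 := by rwa [mul_eq_one_comm] at hu
  unfold qf act
  refine Finset.sum_congr rfl fun j _ => ?_
  congr 1
  rw [Matrix.mulVec_mulVec, Matrix.star_mulVec, ← Matrix.dotProduct_mulVec, Matrix.mulVec_mulVec]
  have e : uᴴ * (u * Y * uᴴ * u) = Y := by
    rw [Matrix.mul_assoc (u * Y), hu', Matrix.mul_one, ← Matrix.mul_assoc, hu', Matrix.one_mul]
  rw [e]

theorem wF_inv {r n : ℕ} {F : (Fin (r + 1) → E n) → ℝ} (hI : Inv F)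
    (u : Matrix (Fin 3) (Fin 3) ℂ) (hu : u * uᴴ = 1) (hd : u.det = 1)
    (Y : Fin r → Matrix (Fin 3) (Fin 3) ℂ) :
    wF F (fun j => u * Y j * uᴴ) = wF F Y := by
  let g : G3 := ⟨u, hd⟩
  have hmp : MeasurePreserving (fun (m : Fin (r + 1) → E n) (i : Fin (r + 1)) =>
      act (g : Matrix (Fin 3) (Fin 3) ℂ) (m i)) volume volume :=
    volume_preserving_pi fun _ => act_mp g
  have hme : MeasurableEmbedding (fun (m : Fin (r + 1) → E n) (i : Fin (r + 1)) =>
      act (g : Matrix (Fin 3) (Fin 3) ℂ) (m i)) := by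
    refine MeasurableEmbedding.of_measurable_inverse
      (g := fun (m : Fin (r + 1) → E n) (i : Fin (r + 1)) =>
        act ((g⁻¹ : G3) : Matrix (Fin 3) (Fin 3) ℂ) (m i)) hmp.measurable ?_ ?_ ?_
    · rw [Set.range_eq_univ.mpr]
      · exact MeasurableSet.univ
      · intro m
        refine ⟨fun i => act ((g⁻¹ : G3) : Matrix (Fin 3) (Fin 3) ℂ) (m i), ?_⟩
        funext i j
        simp only [act]
        rw [Matrix.mulVec_mulVec, ← Matrix.SpecialLinearGroup.coe_mul, mul_inv_cancel]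
        simp
    · exact (volume_preserving_pi fun _ => act_mp g⁻¹ (n := n)).measurable
    · intro m
      funext i j
      simp only [act]
      rw [Matrix.mulVec_mulVec, ← Matrix.SpecialLinearGroup.coe_mul, inv_mul_cancel]
      simp
  unfold wF
  rw [← hmp.integral_comp hme]
  refine integral_congr_ae (ae_of_all _ fun m => ?_)
  simp only
  have hgu : (g : Matrix (Fin 3) (Fin 3) ℂ) = u := rfl
  rw [hI g m, hgu]
  have hr : ∀ v : E n, rho (act u v) = rho v := by
    intro v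
    unfold rho
    rw [q_unitary u hu]
  simp only [hr, qf_unitary u hu]

theorem wF_zero {n : ℕ} {F : (Fin 5 → E n) → ℝ} (hG : GI F) (hA : Alter F) (hI : Inv F) :
    wF F ![A0, PM 0, PM 1, PM 2] = 0 := by
  obtain ⟨w, hw⟩ := wF_alt hG hA
  rw [← hw]
  refine cert w fun u hu hd Y => ?_
  rw [hw, hw]
  exact wF_inv hI u hu hd Y

end Pool.Agent.Helper87.EX
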