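import Pool.Agent.Helper24.EXJ.Defs

/-!
# Project EX, module J, part W (helper24): Gaussian weights and the alternating form `II F`
-/

set_option autoImplicit false

namespace Pool.Agent.Helper87.EX

open MeasureTheory Complex Matrix Filter
open scoped BigOperators Topology

theorem q_nonneg' {n : ℕ} (m : E n) : 0 ≤ q m :=
  Finset.sum_nonneg fun _ _ => Finset.sum_nonneg fun _ _ => Complex.normSq_nonneg _

theorem q_meas' {n : ℕ} : Measurable (fun m : E n => q m) := by
  unfold q
  refine Finset.measurable_sum _ fun j _ => Finset.measurable_sum _ fun i _ => ?_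
  exact Complex.continuous_normSq.measurable.comp
    ((measurable_pi_apply i).comp (measurable_pi_apply j))

theorem exp_mono_wt {n : ℕ} {C c c' : ℝ} (hC : 0 ≤ C) (h : c' ≤ c) (m : E n) :
    C * Real.exp (-c * q m) ≤ C * Real.exp (-c' * q m) := by
  refine mul_le_mul_of_nonneg_left (Real.exp_le_exp.mpr ?_) hC
  nlinarith [q_nonneg' m]

/-- functions bounded by a Gaussian -/
def Wt (n : ℕ) : Submodule ℝ (E n → ℝ) where
  carrier := {f | Measurable f ∧ ∃ C c : ℝ, 0 ≤ C ∧ 0 < c ∧ ∀ m : E n, |f m| ≤ C * Real.exp (-c * q m)}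
  add_mem' := by
    rintro f g ⟨hf, C, c, hC, hc, h⟩ ⟨hg, C', c', hC', hc', h'⟩
    refine ⟨hf.add hg, C + C', min c c', by positivity, lt_min hc hc', fun m => ?_⟩
    have h1 := (h m).trans (exp_mono_wt hC (min_le_left c c') m)
    have h2 := (h' m).trans (exp_mono_wt hC' (min_le_right c c') m)
    calc |(f + g) m| ≤ |f m| + |g m| := abs_add_le _ _
      _ ≤ _ := by rw [add_mul]; exact add_le_add h1 h2
  zero_mem' := ⟨measurable_const, 0, 1, le_refl _, one_pos, fun m => by simp⟩
  smul_mem' := by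
    rintro a f ⟨hf, C, c, hC, hc, h⟩
    refine ⟨hf.const_smul a, |a| * C, c, by positivity, hc, fun m => ?_⟩
    simp only [Pi.smul_apply, smul_eq_mul, abs_mul, mul_assoc]
    exact mul_le_mul_of_nonneg_left (h m) (abs_nonneg a)

theorem common_exp {k : ℕ} (c : Fin k → ℝ) (hc : ∀ i, 0 < c i) : ∃ c0 : ℝ, 0 < c0 ∧ ∀ i, c0 ≤ c i := by
  have h : ∀ᶠ t : ℝ in 𝓝[>] 0, ∀ i, t ≤ c i := by
    rw [eventually_all]
    intro i
    exact (eventually_le_nhds (hc i)).filter_mono nhdsWithin_le_nhds
  obtain ⟨t, ht, ht'⟩ := (h.and self_mem_nhdsWithin).exists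
  exact ⟨t, ht', ht⟩

theorem prod_exp_wt {k n : ℕ} (c : ℝ) (m : Fin k → E n) :
    ∏ i, Real.exp (-c * q (m i)) = Real.exp (-c * ∑ i, q (m i)) := by
  rw [← Real.exp_sum, Finset.mul_sum]

theorem prod_le_wt {k n : ℕ} {c : ℝ} (f : Fin k → E n → ℝ) (C : Fin k → ℝ)
    (hf : ∀ i m, |f i m| ≤ C i * Real.exp (-c * q m)) (m : Fin k → E n) :
    |∏ i, f i (m i)| ≤ (∏ i, C i) * Real.exp (-c * ∑ i, q (m i)) := by
  rw [Finset.abs_prod, ← prod_exp_wt, ← Finset.prod_mul_distrib]
  exact Finset.prod_le_prod (fun i _ => abs_nonneg _) fun i _ => hf i (m i)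

theorem wt_int_aux {k n : ℕ} {F : (Fin k → E n) → ℝ} (hG : GI F) {c : ℝ} (hc : 0 < c)
    (f : Fin k → E n → ℝ) (hm : ∀ i, Measurable (f i)) (C : Fin k → ℝ)
    (hf : ∀ i m, |f i m| ≤ C i * Real.exp (-c * q m)) :
    Integrable (fun m : Fin k → E n => F m * ∏ i, f i (m i)) volume := by
  have h1 := hG c hc
  have hmeas : Measurable fun m : Fin k → E n =>
      (∏ i, f i (m i)) * Real.exp (c * ∑ i, q (m i)) := by
    refine Measurable.mul ?_ ?_
    · exact Finset.measurable_prod _ fun i _ => (hm i).comp (measurable_pi_apply i)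
    · refine Real.measurable_exp.comp (measurable_const.mul ?_)
      exact Finset.measurable_sum _ fun i _ => q_meas'.comp (measurable_pi_apply i)
  have h2 := h1.mul_bdd (c := ∏ i, C i) hmeas.aestronglyMeasurable (ae_of_all _ fun m => by
    rw [Real.norm_eq_abs, abs_mul, abs_of_pos (Real.exp_pos _)]
    calc |∏ i, f i (m i)| * Real.exp (c * ∑ i, q (m i))
        ≤ ((∏ i, C i) * Real.exp (-c * ∑ i, q (m i))) * Real.exp (c * ∑ i, q (m i)) :=
          mul_le_mul_of_nonneg_right (prod_le_wt f C hf m) (Real.exp_pos _).le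
      _ = ∏ i, C i := by
          rw [mul_assoc, ← Real.exp_add]
          simp)
  refine h2.congr (ae_of_all _ fun m => ?_)
  have h3 : Real.exp (-c * ∑ i, q (m i)) * Real.exp (c * ∑ i, q (m i)) = 1 := by
    rw [← Real.exp_add]; simp
  calc F m * Real.exp (-c * ∑ i, q (m i)) * ((∏ i, f i (m i)) * Real.exp (c * ∑ i, q (m i)))
      = F m * (∏ i, f i (m i)) * (Real.exp (-c * ∑ i, q (m i)) * Real.exp (c * ∑ i, q (m i))) := by
        ring
    _ = _ := by rw [h3, mul_one]

/-- integrability of `F(m) ∏ f_i(m_i)` -/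
theorem wt_int {k n : ℕ} {F : (Fin k → E n) → ℝ} (hG : GI F) (f : Fin k → Wt n) :
    Integrable (fun m : Fin k → E n => F m * ∏ i, (f i : E n → ℝ) (m i)) volume := by
  choose C c hC hc hb using fun i => (f i).2.2
  obtain ⟨c0, hc0, hle⟩ := common_exp c hc
  exact wt_int_aux hG hc0 (fun i => (f i : E n → ℝ)) (fun i => (f i).2.1) C
    fun i m => (hb i m).trans (exp_mono_wt (hC i) (hle i) m)

/-- quantitative bound with a common exponent -/
theorem wt_bound {k n : ℕ} {F : (Fin k → E n) → ℝ} (hG : GI F) {c : ℝ} (hc : 0 < c) :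
    ∃ A : ℝ, 0 ≤ A ∧ ∀ (f : Fin k → E n → ℝ) (C : Fin k → ℝ),
      (∀ i m, |f i m| ≤ C i * Real.exp (-c * q m)) →
      |∫ m : Fin k → E n, F m * ∏ i, f i (m i)| ≤ A * ∏ i, C i := by
  refine ⟨∫ m : Fin k → E n, |F m * Real.exp (-c * ∑ i, q (m i))|,
    integral_nonneg fun _ => abs_nonneg _, fun f C hf => ?_⟩
  rw [← integral_mul_const, ← Real.norm_eq_abs]
  refine norm_integral_le_of_norm_le (f := fun m : Fin k → E n => F m * ∏ i, f i (m i))
    ((hG c hc).abs.mul_const (∏ i, C i)) (ae_of_all _ fun m => ?_)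
  rw [Real.norm_eq_abs, abs_mul, abs_mul, abs_of_pos (Real.exp_pos _), mul_assoc]
  refine mul_le_mul_of_nonneg_left ?_ (abs_nonneg _)
  rw [mul_comm (Real.exp _)]
  exact prod_le_wt f C hf m

theorem swap_mp {k n : ℕ} (i j : Fin k) :
    MeasurePreserving (fun (m : Fin k → E n) (l : Fin k) => m (Equiv.swap i j l)) volume volume := by
  have h := volume_measurePreserving_piCongrLeft (fun _ : Fin k => E n) (Equiv.swap i j)
  convert h using 1
  ext m l
  have := MeasurableEquiv.piCongrLeft_apply_apply (β := fun _ : Fin k => E n) (Equiv.swap i j) m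
    (Equiv.swap i j l)
  simp only [Equiv.swap_apply_self] at this
  rw [this]

theorem II_zero {k n : ℕ} {F : (Fin k → E n) → ℝ} (hA : Alter F) (f : Fin k → E n → ℝ)
    (i j : Fin k) (hf : f i = f j) (hij : i ≠ j) :
    ∫ m : Fin k → E n, F m * ∏ l, f l (m l) = 0 := by
  have h1 : ∫ m : Fin k → E n, F m * ∏ l, f l (m l)
      = ∫ m : Fin k → E n, -(F m * ∏ l, f l (m l)) := by
    have hme : MeasurableEmbedding (fun (m : Fin k → E n) (l : Fin k) => m (Equiv.swap i j l)) := by
      have := (MeasurableEquiv.piCongrLeft (fun _ : Fin k => E n) (Equiv.swap i j)).measurableEmbedding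
      convert this using 1
      ext m l
      have := MeasurableEquiv.piCongrLeft_apply_apply (β := fun _ : Fin k => E n) (Equiv.swap i j) m
        (Equiv.swap i j l)
      simp only [Equiv.swap_apply_self] at this
      rw [this]
    rw [← (swap_mp (n := n) i j).integral_comp hme]
    refine integral_congr_ae (ae_of_all _ fun m => ?_)
    simp only
    rw [hA i j m hij]
    have h2 : ∏ l, f l (m (Equiv.swap i j l)) = ∏ l, f l (m l) := by
      rw [← Equiv.prod_comp (Equiv.swap i j)]
      refine Finset.prod_congr rfl fun l _ => ?_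
      rw [Equiv.swap_apply_self]
      rcases eq_or_ne l i with rfl | hi
      · rw [Equiv.swap_apply_left, hf]
      · rcases eq_or_ne l j with rfl | hj
        · rw [Equiv.swap_apply_right, hf]
        · rw [Equiv.swap_apply_of_ne_of_ne hi hj]
    rw [h2]
    ring
  rw [integral_neg] at h1
  linarith

/-- the alternating form -/
noncomputable def II {k n : ℕ} (F : (Fin k → E n) → ℝ) (hG : GI F) (hA : Alter F) :
    AlternatingMap ℝ (Wt n) ℝ (Fin k) where
  toFun f := ∫ m : Fin k → E n, F m * ∏ i, (f i : E n → ℝ) (m i)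
  map_update_add' := by
    intro hdec f i x y
    have hd : hdec = instDecidableEqFin k := Subsingleton.elim _ _
    subst hd
    rw [← integral_add (wt_int hG _) (wt_int hG _)]
    refine integral_congr_ae (ae_of_all _ fun m => ?_)
    simp only
    rw [← mul_add]
    congr 1
    rw [← Finset.mul_prod_erase _ _ (Finset.mem_univ i), ← Finset.mul_prod_erase _ _ (Finset.mem_univ i),
      ← Finset.mul_prod_erase _ _ (Finset.mem_univ i)]
    have h : ∀ z : Wt n, ∏ l ∈ Finset.univ.erase i, (Function.update f i z l : E n → ℝ) (m l)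
        = ∏ l ∈ Finset.univ.erase i, (f l : E n → ℝ) (m l) := by
      intro z
      refine Finset.prod_congr rfl fun l hl => ?_
      rw [Function.update_of_ne (Finset.ne_of_mem_erase hl)]
    rw [h, h, h]
    simp only [Function.update_self, Submodule.coe_add, Pi.add_apply]
    ring
  map_update_smul' := by
    intro hdec f i a x
    have hd : hdec = instDecidableEqFin k := Subsingleton.elim _ _
    subst hd
    rw [smul_eq_mul, ← integral_const_mul]
    refine integral_congr_ae (ae_of_all _ fun m => ?_)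
    simp only
    rw [← Finset.mul_prod_erase _ _ (Finset.mem_univ i), ← Finset.mul_prod_erase _ _ (Finset.mem_univ i)]
    have h : ∀ z : Wt n, ∏ l ∈ Finset.univ.erase i, (Function.update f i z l : E n → ℝ) (m l)
        = ∏ l ∈ Finset.univ.erase i, (f l : E n → ℝ) (m l) := by
      intro z
      refine Finset.prod_congr rfl fun l hl => ?_
      rw [Function.update_of_ne (Finset.ne_of_mem_erase hl)]
    rw [h, h]
    simp only [Function.update_self, Submodule.coe_smul, Pi.smul_apply, smul_eq_mul]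
    ring
  map_eq_zero_of_eq' := by
    intro f i j hf hij
    exact II_zero hA (fun l => (f l : E n → ℝ)) i j (by rw [hf]) hij

theorem II_apply {k n : ℕ} (F : (Fin k → E n) → ℝ) (hG : GI F) (hA : Alter F) (f : Fin k → Wt n) :
    II F hG hA f = ∫ m : Fin k → E n, F m * ∏ i, (f i : E n → ℝ) (m i) := rfl

end Pool.Agent.Helper87.EX
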