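import Pool.Agent.Helper24.EXJ.Kernel
import Pool.Agent.Helper24.EXJ.Weights

/-!
# Project EX, module J: the jet theorem
-/

set_option autoImplicit false

namespace Pool.Agent.Helper87.EX

open MeasureTheory Complex Matrix
open scoped BigOperators

/-- adding the first entry to the others does not change an alternating map -/
theorem alt_cons_add {M : Type*} [AddCommGroup M] [Module ℝ M] {r : ℕ}
    (g : AlternatingMap ℝ M ℝ (Fin (r + 1))) (a0 : M) (a : Fin r → M) :
    g (Fin.cons a0 (fun j => a0 + a j)) = g (Fin.cons a0 a) := by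
  have key : ∀ s : Finset (Fin r),
      g (Fin.cons a0 (fun j => if j ∈ s then a0 + a j else a j)) = g (Fin.cons a0 a) := by
    intro s
    induction s using Finset.induction_on with
    | empty => simp
    | insert j s hj ih =>
      rw [← ih]
      have h1 : (Fin.cons a0 (fun l => if l ∈ insert j s then a0 + a l else a l) : Fin (r + 1) → M)
          = Function.update (Fin.cons a0 (fun l => if l ∈ s then a0 + a l else a l)) j.succ
            (a0 + a j) := by
        rw [← Fin.cons_update]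
        congr 1
        ext l
        rcases eq_or_ne l j with rfl | hl
        · simp
        · simp [Finset.mem_insert, hl]
      have h2 : (Fin.cons a0 (fun l => if l ∈ s then a0 + a l else a l) : Fin (r + 1) → M)
          = Function.update (Fin.cons a0 (fun l => if l ∈ s then a0 + a l else a l)) j.succ
            (a j) := by
        rw [← Fin.cons_update]
        congr 1
        ext l
        rcases eq_or_ne l j with rfl | hl
        · simp [hj]
        · simp [Function.update_of_ne hl]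
      rw [h1, g.map_update_add, ← h2]
      rw [g.map_eq_zero_of_eq _ (i := 0) (j := j.succ) ?_ (Fin.succ_ne_zero j).symm, zero_add]
      rw [Function.update_self, Function.update_of_ne (Fin.succ_ne_zero j).symm, Fin.cons_zero]
  have := key Finset.univ
  simpa using this

theorem prod_sub_prod_le {ι : Type*} [DecidableEq ι] (s : Finset ι) (a b M : ι → ℝ) {ε : ℝ} (hε : 0 ≤ ε)
    (hM : ∀ i, 0 ≤ M i) (ha : ∀ i, |a i| ≤ ε * M i) (hb : ∀ i, |b i| ≤ ε * M i)
    (hab : ∀ i, |a i - b i| ≤ ε ^ 2 * M i) :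
    |∏ i ∈ s, a i - ∏ i ∈ s, b i| ≤ s.card * ε ^ (s.card + 1) * ∏ i ∈ s, M i := by
  induction s using Finset.induction_on with
  | empty => simp
  | insert j s hj ih =>
    rw [Finset.prod_insert hj, Finset.prod_insert hj, Finset.prod_insert hj,
      Finset.card_insert_of_notMem hj]
    have hbs : |∏ i ∈ s, b i| ≤ ε ^ s.card * ∏ i ∈ s, M i := by
      rw [Finset.abs_prod]
      calc ∏ i ∈ s, |b i| ≤ ∏ i ∈ s, (ε * M i) :=
            Finset.prod_le_prod (fun i _ => abs_nonneg _) fun i _ => hb i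
        _ = _ := by rw [Finset.prod_mul_distrib, Finset.prod_const]
    have e1 : a j * ∏ i ∈ s, a i - b j * ∏ i ∈ s, b i
        = a j * (∏ i ∈ s, a i - ∏ i ∈ s, b i) + (a j - b j) * ∏ i ∈ s, b i := by ring
    rw [e1]
    have hP : 0 ≤ ∏ i ∈ s, M i := Finset.prod_nonneg fun i _ => hM i
    calc |a j * (∏ i ∈ s, a i - ∏ i ∈ s, b i) + (a j - b j) * ∏ i ∈ s, b i|
        ≤ |a j * (∏ i ∈ s, a i - ∏ i ∈ s, b i)| + |(a j - b j) * ∏ i ∈ s, b i| := abs_add_le _ _
      _ = |a j| * |∏ i ∈ s, a i - ∏ i ∈ s, b i| + |a j - b j| * |∏ i ∈ s, b i| := by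
          rw [abs_mul, abs_mul]
      _ ≤ (ε * M j) * (s.card * ε ^ (s.card + 1) * ∏ i ∈ s, M i)
          + (ε ^ 2 * M j) * (ε ^ s.card * ∏ i ∈ s, M i) := by
          refine add_le_add ?_ ?_
          · exact mul_le_mul (ha j) ih (abs_nonneg _) (mul_nonneg hε (hM j))
          · exact mul_le_mul (hab j) hbs (abs_nonneg _) (mul_nonneg (by positivity) (hM j))
      _ = _ := by push_cast; ring

theorem act_one' {n : ℕ} (m : E n) :
    act (((1 : G3)⁻¹ : G3) : Matrix (Fin 3) (Fin 3) ℂ) m = m := by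
  unfold act
  simp

theorem rho_meas' {n : ℕ} : Measurable (fun m : E n => rho m) := by
  unfold rho
  exact (Real.measurable_exp.comp q_meas'.neg).div_const _

theorem dk_meas' {n : ℕ} (Y : Matrix (Fin 3) (Fin 3) ℂ) : Measurable (fun m : E n => dk Y m) := by
  unfold dk qf
  refine Measurable.mul (measurable_const.mul ?_) rho_meas'
  refine Finset.measurable_sum _ fun j _ => Continuous.measurable ?_
  refine Complex.continuous_re.comp ?_
  refine Continuous.dotProduct ?_ ?_
  · exact continuous_star.comp (continuous_apply j)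
  · exact Continuous.matrix_mulVec continuous_const (continuous_apply j)

theorem rho_wt {n : ℕ} : (fun m : E n => rho m) ∈ Wt n := by
  refine ⟨rho_meas', 1 / Z n, 1, by have := Z_pos n; positivity, one_pos, fun m => ?_⟩
  have hZ := Z_pos n
  change |Real.exp (-q m) / Z n| ≤ 1 / Z n * Real.exp (-1 * q m)
  rw [abs_of_nonneg (by positivity), neg_one_mul, div_eq_mul_one_div, mul_comm]

theorem dk_wt {n : ℕ} (Y : Matrix (Fin 3) (Fin 3) ℂ) : (fun m : E n => dk Y m) ∈ Wt n := by
  obtain ⟨C, c, hC, hc, h⟩ := dk_le (n := n) Y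
  exact ⟨dk_meas' Y, C, c, hC, hc, h⟩

theorem jet {r n : ℕ} {F : (Fin (r + 1) → E n) → ℝ} (hG : GI F) (hA : Alter F)
    (x : Fin r → ℝ → G3) (Y : Fin r → Matrix (Fin 3) (Fin 3) ℂ) (hx : ∀ j, Tan (x j) (Y j)) :
    ∃ C : ℝ, ∀ ε ∈ Set.Ioc (0:ℝ) 1,
      |HH F (Fin.cons 1 (fun j => x j ε)) - wF F Y * ε ^ r| ≤ C * ε ^ (r + 1) := by
  -- constants
  choose C1 c1 hC1 hc1 hK using fun j => (hx j).kernel n
  choose C2 c2 hC2 hc2 hD using fun j => dk_le (n := n) (Y j)
  obtain ⟨c3, hc3, hle3⟩ := common_exp (fun j => min (c1 j) (c2 j)) fun j => lt_min (hc1 j) (hc2 j)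
  set c : ℝ := min c3 1 with hcdef
  have hc : 0 < c := lt_min hc3 one_pos
  have hcc1 : ∀ j, c ≤ c1 j := fun j => (min_le_left _ _).trans ((hle3 j).trans (min_le_left _ _))
  have hcc2 : ∀ j, c ≤ c2 j := fun j => (min_le_left _ _).trans ((hle3 j).trans (min_le_right _ _))
  have hcc0 : c ≤ 1 := min_le_right _ _
  have hZ := Z_pos n
  -- the constant
  refine ⟨(∫ m : Fin (r + 1) → E n, |F m * Real.exp (-c * ∑ i, q (m i))|)
    * ((1 / Z n) * (r * ∏ j, (C1 j + C2 j))), fun ε hε => ?_⟩
  have hε0 : 0 ≤ ε := hε.1.le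
  have hε1 : ε ^ 2 ≤ ε := by nlinarith [hε.1, hε.2]
  -- the weights
  have hKw : ∀ (j : Fin r) (m : E n),
      |rho (act (((x j ε)⁻¹ : G3) : Matrix (Fin 3) (Fin 3) ℂ) m) - rho m - ε * dk (Y j) m|
        ≤ ε ^ 2 * ((C1 j + C2 j) * Real.exp (-c * q m)) := by
    intro j m
    have h1 := (hK j ε hε m).trans (exp_mono_wt (by have := hC1 j; positivity) (hcc1 j) m)
    refine h1.trans ?_
    have h2 := Real.exp_pos (-c * q m)
    have h3 := hC2 j
    have : 0 ≤ ε ^ 2 * (C2 j * Real.exp (-c * q m)) := by positivity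
    nlinarith
  have hDw : ∀ (j : Fin r) (m : E n),
      |ε * dk (Y j) m| ≤ ε * (C2 j * Real.exp (-c * q m)) := by
    intro j m
    rw [abs_mul, abs_of_nonneg hε0]
    exact mul_le_mul_of_nonneg_left ((hD j m).trans (exp_mono_wt (hC2 j) (hcc2 j) m)) hε0
  have hDw' : ∀ (j : Fin r) (m : E n),
      |ε * dk (Y j) m| ≤ ε * ((C1 j + C2 j) * Real.exp (-c * q m)) := by
    intro j m
    refine (hDw j m).trans ?_
    have h2 := Real.exp_pos (-c * q m)
    have h3 := hC1 j
    have : 0 ≤ ε * (C1 j * Real.exp (-c * q m)) := by positivity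
    nlinarith
  have hAw : ∀ (j : Fin r) (m : E n),
      |rho (act (((x j ε)⁻¹ : G3) : Matrix (Fin 3) (Fin 3) ℂ) m) - rho m|
        ≤ ε * ((C1 j + C2 j) * Real.exp (-c * q m)) := by
    intro j m
    have h1 := (hK j ε hε m).trans (exp_mono_wt (by have := hC1 j; positivity) (hcc1 j) m)
    have h2 := hDw j m
    have h3 : |rho (act (((x j ε)⁻¹ : G3) : Matrix (Fin 3) (Fin 3) ℂ) m) - rho m|
        ≤ C1 j * ε ^ 2 * Real.exp (-c * q m) + ε * (C2 j * Real.exp (-c * q m)) := by
      have h4 := abs_add_le (rho (act (((x j ε)⁻¹ : G3) : Matrix (Fin 3) (Fin 3) ℂ) m) - rho m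
        - ε * dk (Y j) m) (ε * dk (Y j) m)
      rw [sub_add_cancel] at h4
      linarith
    refine h3.trans ?_
    have h5 : C1 j * ε ^ 2 * Real.exp (-c * q m) ≤ C1 j * ε * Real.exp (-c * q m) := by
      refine mul_le_mul_of_nonneg_right (mul_le_mul_of_nonneg_left hε1 (hC1 j)) (Real.exp_pos _).le
    nlinarith
  let ρw : Wt n := ⟨fun m : E n => rho m, rho_wt⟩
  let a : Fin r → Wt n := fun j =>
    ⟨fun m => rho (act (((x j ε)⁻¹ : G3) : Matrix (Fin 3) (Fin 3) ℂ) m) - rho m,
      (rho_meas'.comp (act_mp ((x j ε)⁻¹)).measurable).sub rho_meas',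
      ε * (C1 j + C2 j), c, by have := hC1 j; have := hC2 j; positivity, hc, fun m => by
        rw [mul_assoc]; exact hAw j m⟩
  let b : Fin r → Wt n := fun j => ε • ⟨fun m : E n => dk (Y j) m, dk_wt (Y j)⟩
  -- HH as II
  have e1 : HH F (Fin.cons 1 (fun j => x j ε)) = II F hG hA (Fin.cons ρw (fun j => ρw + a j)) := by
    rw [HH_cv, II_apply]
    refine integral_congr_ae (ae_of_all _ fun m => ?_)
    simp only
    rw [Fin.prod_univ_succ, Fin.prod_univ_succ]
    simp only [Fin.cons_zero, Fin.cons_succ]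
    rw [act_one']
    congr 2
    refine Finset.prod_congr rfl fun j _ => ?_
    change _ = rho (m j.succ) + (rho (act (((x j ε)⁻¹ : G3) : Matrix (Fin 3) (Fin 3) ℂ) (m j.succ))
      - rho (m j.succ))
    ring
  rw [alt_cons_add] at e1
  have e2 : wF F Y * ε ^ r = II F hG hA (Fin.cons ρw b) := by
    rw [II_apply, wF, ← integral_mul_const]
    refine integral_congr_ae (ae_of_all _ fun m => ?_)
    simp only
    rw [Fin.prod_univ_succ]
    simp only [Fin.cons_zero, Fin.cons_succ]
    have h : ∏ j, (b j : E n → ℝ) (m j.succ)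
        = ε ^ r * ∏ j : Fin r, (2 * qf (Y j) (m j.succ) * rho (m j.succ)) := by
      have : ∀ j, (b j : E n → ℝ) (m j.succ) = ε * (2 * qf (Y j) (m j.succ) * rho (m j.succ)) :=
        fun j => rfl
      simp only [this]
      rw [Finset.prod_mul_distrib, Finset.prod_const, Finset.card_univ, Fintype.card_fin]
    rw [h]
    change _ = F m * (rho (m 0) * _)
    ring
  rw [e1, e2, II_apply, II_apply, ← integral_sub (wt_int hG _) (wt_int hG _), ← integral_mul_const,
    ← integral_mul_const, ← Real.norm_eq_abs]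
  refine norm_integral_le_of_norm_le
    (((hG c hc).abs.mul_const ((1 / Z n) * (r * ∏ j, (C1 j + C2 j)))).mul_const (ε ^ (r + 1)))
    (ae_of_all _ fun m => ?_)
  rw [Fin.prod_univ_succ, Fin.prod_univ_succ]
  simp only [Fin.cons_zero, Fin.cons_succ]
  have hprod := prod_sub_prod_le Finset.univ (fun j => (a j : E n → ℝ) (m j.succ))
    (fun j => (b j : E n → ℝ) (m j.succ)) (fun j => (C1 j + C2 j) * Real.exp (-c * q (m j.succ)))
    hε0 (fun j => by have := hC1 j; have := hC2 j; positivity) (fun j => hAw j _) (fun j => hDw' j _)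
    (fun j => hKw j _)
  rw [Finset.card_univ, Fintype.card_fin, Finset.prod_mul_distrib] at hprod
  have hrho : |(ρw : E n → ℝ) (m 0)| ≤ (1 / Z n) * Real.exp (-c * q (m 0)) := by
    change |rho (m 0)| ≤ _
    unfold rho
    rw [abs_of_nonneg (by positivity), div_eq_mul_one_div, mul_comm]
    refine mul_le_mul_of_nonneg_left (Real.exp_le_exp.mpr ?_) (by positivity)
    nlinarith [q_nonneg' (m 0)]
  have e3 : F m * ((ρw : E n → ℝ) (m 0) * ∏ j, (a j : E n → ℝ) (m j.succ))
      - F m * ((ρw : E n → ℝ) (m 0) * ∏ j, (b j : E n → ℝ) (m j.succ))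
      = F m * ((ρw : E n → ℝ) (m 0) * (∏ j, (a j : E n → ℝ) (m j.succ)
        - ∏ j, (b j : E n → ℝ) (m j.succ))) := by ring
  rw [e3, Real.norm_eq_abs, abs_mul, abs_mul, abs_mul]
  have hexp : Real.exp (-c * ∑ i, q (m i))
      = Real.exp (-c * q (m 0)) * ∏ j : Fin r, Real.exp (-c * q (m j.succ)) := by
    rw [← prod_exp_wt, Fin.prod_univ_succ]
  rw [abs_of_pos (Real.exp_pos (-c * ∑ i, q (m i))), hexp]
  calc |F m| * (|(ρw : E n → ℝ) (m 0)| * |∏ j, (a j : E n → ℝ) (m j.succ)
        - ∏ j, (b j : E n → ℝ) (m j.succ)|)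
      ≤ |F m| * (((1 / Z n) * Real.exp (-c * q (m 0)))
        * (r * ε ^ (r + 1) * ((∏ j, (C1 j + C2 j)) * ∏ j : Fin r, Real.exp (-c * q (m j.succ))))) := by
        refine mul_le_mul_of_nonneg_left ?_ (abs_nonneg _)
        exact mul_le_mul hrho hprod (abs_nonneg _) (by positivity)
    _ = _ := by ring

end Pool.Agent.Helper87.EX
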