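import Pool.Agent.Helper24.EXJ.Inv

/-!
# Project EX, module J: the prisms
-/

set_option autoImplicit false

namespace Pool.Agent.Helper87.EX

open MeasureTheory Complex Matrix Cert
open scoped BigOperators

namespace Cert

variable (w : AlternatingMap ℝ M3 ℝ (Fin 4))

theorem zero02 (a b c : M3) : w ![a, b, a, c] = 0 :=
  w.map_eq_zero_of_eq ![a, b, a, c] (i := 0) (j := 2) rfl (by decide)

theorem zero12 (a b c : M3) : w ![a, b, b, c] = 0 :=
  w.map_eq_zero_of_eq ![a, b, b, c] (i := 1) (j := 2) rfl (by decide)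

theorem zero13 (a b c : M3) : w ![a, b, c, b] = 0 :=
  w.map_eq_zero_of_eq ![a, b, c, b] (i := 1) (j := 3) rfl (by decide)

theorem zero23 (a b c : M3) : w ![a, b, c, c] = 0 :=
  w.map_eq_zero_of_eq ![a, b, c, c] (i := 2) (j := 3) rfl (by decide)

end Cert

/-- the curves of the `i`-th simplex -/
noncomputable def xs (t : Fin 3 → ℝ → G3) (i : Fin 4) : Fin 4 → ℝ → G3 :=
  ![![fun ε => aT ε * 1, fun ε => aT ε * t 0 ε, fun ε => aT ε * t 1 ε, fun ε => aT ε * t 2 ε],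
    ![fun ε => t 0 ε, fun ε => aT ε * t 0 ε, fun ε => aT ε * t 1 ε, fun ε => aT ε * t 2 ε],
    ![fun ε => t 0 ε, fun ε => t 1 ε, fun ε => aT ε * t 1 ε, fun ε => aT ε * t 2 ε],
    ![fun ε => t 0 ε, fun ε => t 1 ε, fun ε => t 2 ε, fun ε => aT ε * t 2 ε]] i

/-- their directions -/
noncomputable def Zs (Y : Fin 3 → M3) (i : Fin 4) : Fin 4 → M3 :=
  ![![A0 + 0, A0 + Y 0, A0 + Y 1, A0 + Y 2], ![Y 0, A0 + Y 0, A0 + Y 1, A0 + Y 2],
    ![Y 0, Y 1, A0 + Y 1, A0 + Y 2], ![Y 0, Y 1, Y 2, A0 + Y 2]] i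

theorem xs_tan (t : Fin 3 → ℝ → G3) (Y : Fin 3 → M3) (ht : ∀ j, Tan (t j) (Y j)) (i j : Fin 4) :
    Tan (xs t i j) (Zs Y i j) := by
  have h0 := ht 0
  have h1 := ht 1
  have h2 := ht 2
  have a : ∀ k, Tan (fun ε => aT ε * t k ε) (A0 + Y k) := fun k => tan_mul tan_aT (ht k)
  have a' : Tan (fun ε => aT ε * 1) (A0 + 0) := tan_mul tan_aT tan_one
  fin_cases i <;> fin_cases j
  · exact a'
  · exact a 0
  · exact a 1
  · exact a 2
  · exact h0
  · exact a 0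
  · exact a 1
  · exact a 2
  · exact h0
  · exact h1
  · exact a 1
  · exact a 2
  · exact h0
  · exact h1
  · exact h2
  · exact a 2

theorem xs_pri (t : Fin 3 → ℝ → G3) (ε : ℝ) (i : Fin 4) :
    pri (aT ε) (Fin.cons 1 (fun j => t j ε) : Fin 4 → G3) i
      = Fin.cons 1 (fun j => xs t i j ε) := by
  funext j
  fin_cases i <;> fin_cases j <;> rfl

theorem Zs_zero (w : AlternatingMap ℝ M3 ℝ (Fin 4)) (Y : Fin 3 → M3)
    (hz : w ![A0, Y 0, Y 1, Y 2] = 0) (i : Fin 4) : w (Zs Y i) = 0 := by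
  have e1 : w ![Y 0, A0, Y 1, Y 2] = 0 := by rw [swap01, hz, neg_zero]
  have e2 : w ![Y 0, Y 1, A0, Y 2] = 0 := by rw [swap12, e1, neg_zero]
  have e3 : w ![Y 0, Y 1, Y 2, A0] = 0 := by rw [swap23, e2, neg_zero]
  fin_cases i
  · change w ![A0 + 0, A0 + Y 0, A0 + Y 1, A0 + Y 2] = 0
    rw [add_zero, add1, zero01, add2, zero02, add3, zero03, hz]
    simp
  · change w ![Y 0, A0 + Y 0, A0 + Y 1, A0 + Y 2] = 0
    rw [add1, zero01, add2, zero12, add3, zero13, e1]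
    simp
  · change w ![Y 0, Y 1, A0 + Y 1, A0 + Y 2] = 0
    rw [add2, zero12, add3, zero23, e2]
    simp
  · change w ![Y 0, Y 1, Y 2, A0 + Y 2] = 0
    rw [add3, zero23, e3]
    simp

theorem prism_core {n : ℕ} {F : (Fin 5 → E n) → ℝ} (hG : GI F) (hA : Alter F)
    (t : Fin 3 → ℝ → G3) (Y : Fin 3 → M3) (ht : ∀ j, Tan (t j) (Y j))
    (hz : wF F ![A0, Y 0, Y 1, Y 2] = 0) :
    ∃ C : ℝ, ∀ ε ∈ Set.Ioc (0:ℝ) 1,
      |Pr (HH F) (aT ε) (Fin.cons 1 (fun j => t j ε))| ≤ C * ε ^ 5 := by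
  obtain ⟨w, hw⟩ := wF_alt hG hA
  rw [← hw] at hz
  choose C hC using fun i : Fin 4 => jet hG hA (xs t i) (Zs Y i) (xs_tan t Y ht i)
  refine ⟨∑ i, C i, fun ε hε => ?_⟩
  unfold Pr
  refine (Finset.abs_sum_le_sum_abs _ _).trans ?_
  rw [Finset.sum_mul]
  refine Finset.sum_le_sum fun i _ => ?_
  rw [abs_mul, abs_pow, abs_neg, abs_one, one_pow, one_mul, xs_pri]
  have h := hC i ε hε
  rw [← hw, Zs_zero w Y hz i, zero_mul, sub_zero] at h
  exact h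

theorem prism_jet' {n : ℕ} {F : (Fin 5 → E n) → ℝ} (hG : GI F) (hA : Alter F) (hI : Inv F) :
    ∃ C : ℝ, ∀ ε ∈ Set.Ioc (0:ℝ) 1,
      |Pr (HH F) (aT ε) (fun i => emb (sg ε i))| ≤ C * ε ^ 5 := by
  obtain ⟨C, hC⟩ := prism_core hG hA (fun j ε => emb (sg ε j.succ)) PM tan_sg (wF_zero hG hA hI)
  refine ⟨C, fun ε hε => ?_⟩
  have h := hC ε hε
  have e : (fun i => emb (sg ε i)) = (Fin.cons 1 (fun j : Fin 3 => emb (sg ε j.succ)) : Fin 4 → G3) := by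
    funext i
    refine Fin.cases ?_ (fun j => ?_) i
    · rw [Fin.cons_zero]
      ext i j
      fin_cases i <;> fin_cases j <;> simp [emb, sg]
    · rw [Fin.cons_succ]
  rw [e]
  exact h

theorem prism_jet_cj' {n : ℕ} {F : (Fin 5 → E n) → ℝ} (hG : GI F) (hA : Alter F) (hI : Inv F) :
    ∃ C : ℝ, ∀ ε ∈ Set.Ioc (0:ℝ) 1,
      |Pr (HH F) (aT ε) (fun i => emb (cj (sg ε i)))| ≤ C * ε ^ 5 := by
  have hz : wF F ![A0, PMc 0, PMc 1, PMc 2] = 0 := by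
    obtain ⟨w, hw⟩ := wF_alt hG hA
    have h := wF_zero hG hA hI
    rw [← hw] at h ⊢
    have e : PMc 1 = (-1 : ℝ) • PM 1 := by
      ext i j
      fin_cases i <;> fin_cases j <;> simp [PMc, PM]
    have e0 : PMc 0 = PM 0 := rfl
    have e2 : PMc 2 = PM 2 := rfl
    rw [e0, e2, e, smul2, h, mul_zero]
  obtain ⟨C, hC⟩ := prism_core hG hA (fun j ε => emb (cj (sg ε j.succ))) PMc tan_cj_sg hz
  refine ⟨C, fun ε hε => ?_⟩
  have h := hC ε hε
  have e : (fun i => emb (cj (sg ε i)))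
      = (Fin.cons 1 (fun j : Fin 3 => emb (cj (sg ε j.succ))) : Fin 4 → G3) := by
    funext i
    refine Fin.cases ?_ (fun j => ?_) i
    · rw [Fin.cons_zero]
      ext i j
      fin_cases i <;> fin_cases j <;> simp [emb, sg, cj]
    · rw [Fin.cons_succ]
  rw [e]
  exact h

end Pool.Agent.Helper87.EX
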